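import Mathlib

/-!
Project EVN (MP_8c6f77_pr), block D: the argument of the maximum of `x^(-σ) ∑_(k ≤ x) α k`.
-/

namespace Pool.Agent.EVN

open scoped ENNReal

/-- `argmax`, real version. -/
theorem argmax {a : ℕ → ℝ} (h0 : ∀ k, 0 ≤ a k) {σ : ℝ} (hσ : 0 < σ) (hσ1 : σ < 1)
    (Hm : ℕ) (hHm : 1 ≤ Hm) : ∃ H : ℕ, 1 ≤ H ∧ H ≤ Hm ∧
      (∀ x : ℕ, 1 ≤ x → x ≤ Hm → ∑ k ∈ Finset.range (x + 1), a k ≤
        ((x : ℝ) / H) ^ σ * ∑ k ∈ Finset.range (H + 1), a k) ∧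
      (2 ≤ H → σ * (∑ k ∈ Finset.range (H + 1), a k) ≤ H * a H) := by
  obtain ⟨H, hH, hmax⟩ := Finset.exists_max_image (Finset.Icc 1 Hm)
    (fun x : ℕ => (∑ k ∈ Finset.range (x + 1), a k) / (x : ℝ) ^ σ) ⟨1, Finset.mem_Icc.2 ⟨le_rfl, hHm⟩⟩
  have hH' := Finset.mem_Icc.1 hH
  have hH0 : (0 : ℝ) < H := by exact_mod_cast hH'.1
  have key : ∀ x : ℕ, 1 ≤ x → x ≤ Hm → ∑ k ∈ Finset.range (x + 1), a k ≤
      ((x : ℝ) / H) ^ σ * ∑ k ∈ Finset.range (H + 1), a k := by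
    intro x hx1 hx2
    have h1 := hmax x (Finset.mem_Icc.2 ⟨hx1, hx2⟩)
    have hx0 : (0 : ℝ) < x := by exact_mod_cast hx1
    have hxp : 0 < (x : ℝ) ^ σ := Real.rpow_pos_of_pos hx0 σ
    have hHp : 0 < (H : ℝ) ^ σ := Real.rpow_pos_of_pos hH0 σ
    rw [div_le_div_iff₀ hxp hHp] at h1
    rw [Real.div_rpow hx0.le hH0.le, div_mul_eq_mul_div, le_div_iff₀ hHp]
    linarith
  refine ⟨H, hH'.1, hH'.2, key, fun h2 => ?_⟩
  have h3 := key (H - 1) (by omega) (by omega)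
  have h4 : H - 1 + 1 = H := by omega
  rw [h4] at h3
  have hS : 0 ≤ ∑ k ∈ Finset.range (H + 1), a k := Finset.sum_nonneg fun k _ => h0 k
  have h5 : ((H - 1 : ℕ) : ℝ) / H = 1 + -(1 / (H : ℝ)) := by
    rw [Nat.cast_sub hH'.1, Nat.cast_one]
    field_simp
    ring
  have h6 : (((H - 1 : ℕ) : ℝ) / H) ^ σ ≤ 1 - σ / H := by
    rw [h5]
    have h7 : (1 : ℝ) / H ≤ 1 := by
      rw [div_le_one hH0]
      exact_mod_cast hH'.1
    have h8 := rpow_one_add_le_one_add_mul_self (s := -(1 / (H : ℝ))) (by linarith) hσ.le hσ1.le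
    refine h8.trans (le_of_eq ?_)
    ring
  have h9 := Finset.sum_range_succ a H
  have h10 : ∑ k ∈ Finset.range H, a k ≤ (1 - σ / H) * ∑ k ∈ Finset.range (H + 1), a k :=
    h3.trans (mul_le_mul_of_nonneg_right h6 hS)
  have h11 : σ / H * ∑ k ∈ Finset.range (H + 1), a k ≤ a H := by
    rw [sub_mul, one_mul] at h10
    linarith
  rw [div_mul_eq_mul_div, div_le_iff₀ hH0] at h11
  linarith

/-- `argmax` for `ℝ≥0∞`. -/
theorem argmax_enn {α : ℕ → ℝ≥0∞} (hα : ∀ k, α k ≠ ⊤) {σ : ℝ} (hσ : 0 < σ) (hσ1 : σ < 1)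
    (Hm : ℕ) (hHm : 1 ≤ Hm) : ∃ H : ℕ, 1 ≤ H ∧ H ≤ Hm ∧
      (∀ x : ℕ, 1 ≤ x → x ≤ Hm → ∑ k ∈ Finset.range (x + 1), α k ≤
        ENNReal.ofReal (((x : ℝ) / H) ^ σ) * ∑ k ∈ Finset.range (H + 1), α k) ∧
      (2 ≤ H → ENNReal.ofReal σ * (∑ k ∈ Finset.range (H + 1), α k) ≤ H * α H) := by
  obtain ⟨H, h1, h2, h3, h4⟩ := argmax (a := fun k => (α k).toReal) (fun k => ENNReal.toReal_nonneg)
    hσ hσ1 Hm hHm
  have hs : ∀ x : ℕ, ∑ k ∈ Finset.range (x + 1), α k =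
      ENNReal.ofReal (∑ k ∈ Finset.range (x + 1), (α k).toReal) := by
    intro x
    rw [ENNReal.ofReal_sum_of_nonneg fun k _ => ENNReal.toReal_nonneg]
    exact Finset.sum_congr rfl fun k _ => (ENNReal.ofReal_toReal (hα k)).symm
  refine ⟨H, h1, h2, fun x hx1 hx2 => ?_, fun h => ?_⟩
  · rw [hs, hs, ← ENNReal.ofReal_mul (by positivity)]
    exact ENNReal.ofReal_le_ofReal (h3 x hx1 hx2)
  · rw [hs, ← ENNReal.ofReal_mul hσ.le, ← ENNReal.ofReal_toReal (hα H), ← ENNReal.ofReal_natCast,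
      ← ENNReal.ofReal_mul (Nat.cast_nonneg H)]
    exact ENNReal.ofReal_le_ofReal (h4 h)

end Pool.Agent.EVN
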