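import Pool.Agent.EVN.D.Basic
import Pool.Agent.HDN.Two

/-!
Project EVN (MP_8c6f77_pr), block D: the choice of the parameters, and `PP n n' ≤ 1`.
-/

namespace Pool.Agent.EVN

open Pool.Agent.Hhelper14.SAW Pool.Agent.HHP
open scoped ENNReal

/-- Submultiplicativity. -/
theorem PP_le_one (n n' : ℕ) : PP n n' ≤ 1 := by
  unfold PP
  refine ENNReal.div_le_of_le_mul ?_
  rw [one_mul]
  have h : an (n + n') ≤ an n * an n' := by
    rw [← Pool.Agent.HDN.PL_card]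
    have h1 : Pool.Agent.HDN.PL n n' ⊆ {P | IsWalk n P} ×ˢ {P | IsWalk n' P} := fun q hq => ⟨hq.1, hq.2.1⟩
    refine (Set.ncard_le_ncard h1 ((walk_finite n).prod (walk_finite n'))).trans ?_
    rw [Set.ncard_prod]
    exact le_rfl
  exact_mod_cast h

/-- The parameters: `Hm = ⌊n ^ (1 / (20 E))⌋`, `J = ⌊(n / 32) ^ (1 / 5)⌋`. -/
theorem par (E Q : ℕ) (hE : 1 ≤ E) : ∃ n1 : ℕ, 1 ≤ n1 ∧ ∀ n : ℕ, n1 ≤ n → ∃ Hm J : ℕ, 1 ≤ J ∧ 32 * J ^ 5 ≤ n ∧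
    Q ≤ Hm ∧ (Hm : ℝ) ≤ (n : ℝ) ^ (1 / (20 * E) : ℝ) ∧ (n : ℝ) ^ (1 / (20 * E) : ℝ) ≤ 2 * Hm ∧
    (Q : ℝ) * (Hm : ℝ) ^ E * (n : ℝ) ^ (1 / 10 : ℝ) ≤ J ∧ (Q : ℝ) ≤ (n : ℝ) ^ (1 / (200 * E) : ℝ) := by
  refine ⟨(4 * Q + 4) ^ (200 * E), Nat.one_le_pow _ _ (by omega), fun n hn => ?_⟩
  have hE0 : (0 : ℝ) < E := by exact_mod_cast hE
  have hn0 : (0 : ℝ) ≤ n := Nat.cast_nonneg n
  set y : ℝ := (n : ℝ) ^ (1 / (200 * E) : ℝ) with hy
  have hy4 : (4 : ℝ) * Q + 4 ≤ y := by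
    have h1 : ((4 : ℝ) * Q + 4) ^ (200 * E) ≤ n := by exact_mod_cast hn
    calc (4 : ℝ) * Q + 4 = (((4 : ℝ) * Q + 4) ^ (200 * E)) ^ (1 / (200 * E) : ℝ) := by
          rw [← Real.rpow_natCast, ← Real.rpow_mul (by positivity)]
          push_cast
          rw [mul_one_div_cancel (by positivity), Real.rpow_one]
      _ ≤ _ := Real.rpow_le_rpow (by positivity) h1 (by positivity)
  have hQ0 : (0 : ℝ) ≤ Q := Nat.cast_nonneg Q
  have hy1 : (1 : ℝ) ≤ y := by linarith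
  have hy0 : (0 : ℝ) ≤ y := by linarith
  have pw : ∀ k : ℕ, y ^ k = (n : ℝ) ^ ((k : ℝ) / (200 * E)) := by
    intro k
    rw [hy, ← Real.rpow_natCast, ← Real.rpow_mul hn0]
    congr 1
    ring
  have e10 : (n : ℝ) ^ (1 / (20 * E) : ℝ) = y ^ 10 := by
    rw [pw]
    congr 1
    push_cast
    field_simp
    norm_num
  have e20 : (n : ℝ) ^ (1 / 10 : ℝ) = y ^ (20 * E) := by
    rw [pw]
    congr 1
    push_cast
    field_simp
    norm_num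
  have e40 : (n : ℝ) ^ (1 / 5 : ℝ) = y ^ (40 * E) := by
    rw [pw]
    congr 1
    push_cast
    field_simp
    norm_num
  have ee : (n : ℝ) = (y ^ (40 * E)) ^ 5 := by
    rw [← e40, ← Real.rpow_natCast, ← Real.rpow_mul hn0]
    norm_num
  have hyp : ∀ k : ℕ, 1 ≤ k → y ≤ y ^ k := fun k hk => le_self_pow₀ hy1 (by omega)
  set Hm := ⌊y ^ 10⌋₊ with hHm
  set J := ⌊y ^ (40 * E) / 2⌋₊ with hJ
  have hH1 : (Hm : ℝ) ≤ y ^ 10 := Nat.floor_le (by positivity)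
  have hH2 : y ^ 10 < Hm + 1 := Nat.lt_floor_add_one _
  have hJ1 : (J : ℝ) ≤ y ^ (40 * E) / 2 := Nat.floor_le (by positivity)
  have hJ2 : y ^ (40 * E) / 2 < J + 1 := Nat.lt_floor_add_one _
  have a1 := hyp 10 (by norm_num)
  have a2 := hyp (40 * E) (by omega)
  have hHm3 : (3 : ℝ) ≤ Hm := by linarith
  have hQH : (Q : ℝ) ≤ Hm := by linarith
  refine ⟨Hm, J, ?_, ?_, by exact_mod_cast hQH, ?_, ?_, ?_, ?_⟩
  · have : (1 : ℝ) ≤ J := by linarith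
    exact_mod_cast this
  · have h1 : ((32 * J ^ 5 : ℕ) : ℝ) ≤ n := by
      push_cast
      calc (32 : ℝ) * (J : ℝ) ^ 5 ≤ 32 * (y ^ (40 * E) / 2) ^ 5 := by gcongr
        _ = (y ^ (40 * E)) ^ 5 := by ring
        _ = n := ee.symm
    exact_mod_cast h1
  · rw [e10]; exact hH1
  · rw [e10]; linarith
  · have b1 : (Hm : ℝ) ^ E ≤ y ^ (10 * E) := by
      calc (Hm : ℝ) ^ E ≤ (y ^ 10) ^ E := by gcongr
        _ = _ := by rw [← pow_mul]
    have b2 : (4 : ℝ) * Q ≤ y ^ (10 * E) := by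
      have := hyp (10 * E) (by omega)
      linarith
    have b3 : (4 : ℝ) ≤ y ^ (40 * E) := by linarith
    rw [e20]
    have c1 : (Q : ℝ) * (Hm : ℝ) ^ E * y ^ (20 * E) ≤ y ^ (40 * E) / 4 := by
      calc (Q : ℝ) * (Hm : ℝ) ^ E * y ^ (20 * E) ≤ (y ^ (10 * E) / 4) * y ^ (10 * E) * y ^ (20 * E) := by
            gcongr
            linarith
        _ = y ^ (10 * E + 10 * E + 20 * E) / 4 := by rw [pow_add, pow_add]; ring
        _ = _ := by rw [show 10 * E + 10 * E + 20 * E = 40 * E by ring]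
    linarith
  · linarith

end Pool.Agent.EVN
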