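import Pool.Agent.EVN.D.CaseB
import Pool.Agent.EVN.D.Arg
import Pool.Agent.EVN.D.Par

/-!
Project EVN (MP_8c6f77_pr), block D: THE CONTRACTS GIVE THE GOAL.
-/

namespace Pool.Agent.EVN

open Pool.Agent.Hhelper14.SAW Pool.Agent.HHP Pool.Agent.HEP Pool.Agent.PLY.G Pool.Agent.BEX.F
open scoped ENNReal

private lemma Main_b : ∃ q : ℕ, ∀ k : ℕ, 1 ≤ k → 1 ≤ ((q * k : ℕ) : ℝ≥0∞) * hsI.b k := by
  obtain ⟨c, Cu, hc, -, hpow⟩ := pow_bounds
  obtain ⟨q, hq⟩ := exists_nat_ge (1 / c)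
  refine ⟨q, fun k hk => ?_⟩
  have hk1 : (1 : ℝ) ≤ k := by exact_mod_cast hk
  have hk0 : (0 : ℝ) < k := by linarith
  have h1 : c * (k : ℝ) ^ (-1 : ℝ) ≤ c * (k : ℝ) ^ (-(1 / 4) : ℝ) := by
    refine mul_le_mul_of_nonneg_left ?_ hc.le
    exact Real.rpow_le_rpow_of_exponent_le hk1 (by norm_num)
  calc (1 : ℝ≥0∞) = ENNReal.ofReal 1 := ENNReal.ofReal_one.symm
    _ ≤ ENNReal.ofReal ((q * k : ℕ) * (c * (k : ℝ) ^ (-1 : ℝ))) := by
        refine ENNReal.ofReal_le_ofReal ?_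
        rw [Real.rpow_neg_one]
        push_cast
        have h2 : 1 ≤ q * c := by
          rw [div_le_iff₀ hc] at hq
          exact hq
        calc (1 : ℝ) ≤ q * c := h2
          _ = q * k * (c * (k : ℝ)⁻¹) := by field_simp
    _ = ((q * k : ℕ) : ℝ≥0∞) * ENNReal.ofReal (c * (k : ℝ) ^ (-1 : ℝ)) := by
        rw [ENNReal.ofReal_mul (Nat.cast_nonneg _), ENNReal.ofReal_natCast]
    _ ≤ ((q * k : ℕ) : ℝ≥0∞) * ENNReal.ofReal (c * (k : ℝ) ^ (-(1 / 4) : ℝ)) := by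
        gcongr
    _ ≤ ((q * k : ℕ) : ℝ≥0∞) * hsI.b k := by
        gcongr
        exact (hpow k hk).2.2

private lemma Main_small {m CK X J : ℕ} (hJ : 1 ≤ J) (h : m * CK * X ≤ J) :
    (m : ℝ≥0∞) * (CK * ((X : ℝ≥0∞) / J)) ≤ 1 := by
  have hJ0 : (J : ℝ≥0∞) ≠ 0 := by exact_mod_cast (by omega : J ≠ 0)
  have e1 : (m : ℝ≥0∞) * (CK * ((X : ℝ≥0∞) / J)) = ((m * CK * X : ℕ) : ℝ≥0∞) / J := by
    push_cast
    rw [← mul_div_assoc, ← mul_div_assoc]
    congr 1
    ring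
  rw [e1, ENNReal.div_le_iff hJ0 (ENNReal.natCast_ne_top J), one_mul]
  exact_mod_cast h

/-- The real inequality of case B. -/
private lemma Main_realB {n Hm R c1 : ℝ} (hn : 1 ≤ n) (hHm : n ^ (10 * c1) ≤ 2 * Hm) (hR : Hm ≤ 32 * R) :
    (8 * n ^ c1) ^ 2 * R ^ (-(3 / 10) : ℝ) ≤ 4096 * n ^ (-c1) := by
  have hn0 : 0 < n := by linarith
  have h1 : n ^ (10 * c1) / 64 ≤ R := by linarith
  have h2 : R ^ (-(3 / 10) : ℝ) ≤ 64 * n ^ (-(3 * c1)) := by
    calc R ^ (-(3 / 10) : ℝ) ≤ (n ^ (10 * c1) / 64) ^ (-(3 / 10) : ℝ) :=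
          Real.rpow_le_rpow_of_nonpos (by positivity) h1 (by norm_num)
      _ = (64 : ℝ) ^ (3 / 10 : ℝ) * n ^ (-(3 * c1)) := by
          rw [Real.div_rpow (by positivity) (by norm_num), ← Real.rpow_mul hn0.le,
            Real.rpow_neg (by norm_num : (0 : ℝ) ≤ 64), div_inv_eq_mul, mul_comm]
          congr 2
          ring
      _ ≤ 64 * n ^ (-(3 * c1)) := by
          refine mul_le_mul_of_nonneg_right ?_ (by positivity)
          calc (64 : ℝ) ^ (3 / 10 : ℝ) ≤ 64 ^ (1 : ℝ) :=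
                Real.rpow_le_rpow_of_exponent_le (by norm_num) (by norm_num)
            _ = 64 := by norm_num
  calc (8 * n ^ c1) ^ 2 * R ^ (-(3 / 10) : ℝ) ≤ (8 * n ^ c1) ^ 2 * (64 * n ^ (-(3 * c1))) := by
        gcongr
    _ = 4096 * (n ^ c1 * n ^ c1 * n ^ (-(3 * c1))) := by ring
    _ = 4096 * n ^ (-c1) := by
        rw [← Real.rpow_add hn0, ← Real.rpow_add hn0]
        congr 2
        ring

theorem goal_of (hA : ALaw) (hP : PMain) (hW : WMain) (hM1 : MOne) (hMa : MArea) (hMg : MGrow) (hK1 : KOne)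
    (hKm : KMono) (hKk : KKey) : Goal := by
  obtain ⟨nA, hA⟩ := hA
  obtain ⟨CA, hCA1, hcA⟩ := caseA hP hW hM1 hMg hK1 hKk
  obtain ⟨CB, hCB1, hcB⟩ := caseB hP hW hMa
  obtain ⟨CK, nK, hKm⟩ := hKm
  obtain ⟨q, hq⟩ := Main_b
  obtain ⟨E, hE⟩ : ∃ E, E = CA + CB + 4 := ⟨_, rfl⟩
  obtain ⟨Q, hQ⟩ : ∃ Q, Q = CA + CB + 40 * CK + 16 + CK * q := ⟨_, rfl⟩
  obtain ⟨n1, hn11, hpar⟩ := par E Q (by omega)
  obtain ⟨N1, hN1⟩ : ∃ N1, N1 = n1 + CA + CB + nA + nK := ⟨_, rfl⟩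
  obtain ⟨c1, hc1⟩ : ∃ c1 : ℝ, c1 = 1 / (200 * E) := ⟨_, rfl⟩
  obtain ⟨e, he⟩ : ∃ e : ℝ, e = c1 / 1000 := ⟨_, rfl⟩
  have hEr : (5 : ℝ) ≤ E := by
    have : 5 ≤ E := by omega
    exact_mod_cast this
  have hc10 : 0 < c1 := by
    rw [hc1]
    positivity
  have hc1' : c1 ≤ 1 / 1000 := by
    rw [hc1, div_le_div_iff₀ (by positivity) (by norm_num)]
    linarith
  have hc01 : (1 : ℝ) / (20 * E) = 10 * c1 := by
    rw [hc1]
    field_simp
    norm_num
  have he0 : 0 < e := by rw [he]; positivity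
  have he1 : e ≤ c1 := by rw [he]; linarith
  have hbig : ∀ n n' : ℕ, N1 ≤ n → n ≤ n' →
      PP n n' ≤ ENNReal.ofReal ((2 * CA + 4097 * CB) * (n : ℝ) ^ (-e)) := by
    intro n n' hn hnn
    obtain ⟨Hm, J, hJ1, hJ5, hQHm, hHm1, hHm2, hQJ, hQn⟩ := hpar n (by omega)
    rw [hc01] at hHm1 hHm2
    rw [← hc1] at hQn
    have hn1 : (1 : ℝ) ≤ n := by
      have : 1 ≤ n := by omega
      exact_mod_cast this
    have hn0 : (0 : ℝ) < n := by linarith
    have hHm0 : 1 ≤ Hm := by omega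
    have hJ0 : (J : ℝ≥0∞) ≠ 0 := by exact_mod_cast (by omega : J ≠ 0)
    have hJt : (J : ℝ≥0∞) ≠ ⊤ := ENNReal.natCast_ne_top J
    -- natural version
    have hQJ' : Q * Hm ^ E ≤ J := by
      have h1 : (1 : ℝ) ≤ (n : ℝ) ^ (1 / 10 : ℝ) := Real.one_le_rpow hn1 (by norm_num)
      have h2 : (Q : ℝ) * (Hm : ℝ) ^ E ≤ J := by
        refine le_trans ?_ hQJ
        calc (Q : ℝ) * (Hm : ℝ) ^ E = (Q : ℝ) * (Hm : ℝ) ^ E * 1 := (mul_one _).symm
          _ ≤ _ := by gcongr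
      exact_mod_cast h2
    have hpw : ∀ k, k ≤ E → Hm ^ k ≤ Hm ^ E := fun k hk => Nat.pow_le_pow_right hHm0 hk
    -- small error
    have herr : ∀ k : ℕ, k ≤ E → ∀ X : ℕ, X ≤ Hm ^ k → (X : ℝ≥0∞) / J ≤ ENNReal.ofReal ((n : ℝ) ^ (-e)) := by
      intro k hk X hX
      rw [ENNReal.div_le_iff hJ0 hJt, ← ENNReal.ofReal_natCast J, ← ENNReal.ofReal_mul (by positivity),
        ← ENNReal.ofReal_natCast X]
      refine ENNReal.ofReal_le_ofReal ?_
      have h1 : (X : ℝ) ≤ (Hm : ℝ) ^ E := by exact_mod_cast hX.trans (hpw k hk)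
      have h2 : (1 : ℝ) ≤ Q := by exact_mod_cast (by omega : 1 ≤ Q)
      calc (X : ℝ) ≤ (n : ℝ) ^ (-e) * ((n : ℝ) ^ (1 / 10 : ℝ) * (Hm : ℝ) ^ E) := by
            have h3 : (1 : ℝ) ≤ (n : ℝ) ^ (-e) * (n : ℝ) ^ (1 / 10 : ℝ) := by
              rw [← Real.rpow_add hn0]
              exact Real.one_le_rpow hn1 (by linarith)
            calc (X : ℝ) ≤ (Hm : ℝ) ^ E := h1
              _ = 1 * (Hm : ℝ) ^ E := (one_mul _).symm
              _ ≤ ((n : ℝ) ^ (-e) * (n : ℝ) ^ (1 / 10 : ℝ)) * (Hm : ℝ) ^ E := by gcongr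
              _ = _ := by ring
        _ ≤ (n : ℝ) ^ (-e) * J := by
            gcongr
            refine le_trans ?_ hQJ
            calc (n : ℝ) ^ (1 / 10 : ℝ) * (Hm : ℝ) ^ E = 1 * (Hm : ℝ) ^ E * (n : ℝ) ^ (1 / 10 : ℝ) := by ring
              _ ≤ _ := by gcongr
    -- the law and the monotone majorant
    obtain ⟨𝓛, hev⟩ := hA n n' J ⟨by omega, hJ1, hJ5⟩ hnn
    have hHm4 : Hm ^ 3 * Hm = Hm ^ 4 := by ring
    have h40 : 40 * Hm * CK * Hm ^ 3 ≤ J := by
      calc 40 * Hm * CK * Hm ^ 3 = (40 * CK) * Hm ^ 4 := by ring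
        _ ≤ Q * Hm ^ E := Nat.mul_le_mul (by omega) (hpw 4 (by omega))
        _ ≤ J := hQJ'
    have hqH : q * Hm * CK * Hm ^ 3 ≤ J := by
      calc q * Hm * CK * Hm ^ 3 = (CK * q) * Hm ^ 4 := by ring
        _ ≤ Q * Hm ^ E := Nat.mul_le_mul (by omega) (hpw 4 (by omega))
        _ ≤ J := hQJ'
    have h1K : 1 * CK * Hm ^ 3 ≤ J := by
      calc 1 * CK * Hm ^ 3 ≤ Q * Hm ^ E := Nat.mul_le_mul (by omega) (hpw 3 (by omega))
        _ ≤ J := hQJ'
    obtain ⟨α, hα, hαk⟩ := hKm n n' J (Hm ^ 3) 𝓛 ⟨by omega, hJ1, hJ5⟩ hnn hev (Nat.one_le_pow _ _ hHm0)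
      (by rw [one_mul] at h1K; exact h1K)
    obtain ⟨δ, hδ⟩ : ∃ δ : ℝ≥0∞, δ = CK * (((Hm ^ 3 : ℕ) : ℝ≥0∞) / J) := ⟨_, rfl⟩
    have hδ40 : ((40 * Hm : ℕ) : ℝ≥0∞) * δ ≤ 1 := by rw [hδ]; exact Main_small hJ1 h40
    have hδq : ((q * Hm : ℕ) : ℝ≥0∞) * δ ≤ 1 := by rw [hδ]; exact Main_small hJ1 hqH
    have hδ1 : δ ≤ 1 := by
      have := Main_small (m := 1) hJ1 h1K
      rw [hδ]
      simpa using this
    have hak : ∀ k, ak 𝓛 (Hm ^ 3) k ≤ α k := fun k => (hαk k).1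
    have hak' : ∀ k, α k ≤ ak 𝓛 (Hm ^ 3) k + δ := fun k => by rw [hδ]; exact (hαk k).2
    have hα0 : 1 ≤ α 0 := by
      have := hak 0
      rwa [ak_zero] at this
    have hα02 : α 0 ≤ 2 := by
      refine (hak' 0).trans ?_
      rw [ak_zero]
      calc (1 : ℝ≥0∞) + δ ≤ 1 + 1 := by gcongr
        _ = 2 := by norm_num
    have hα0t : α 0 ≠ ⊤ := ne_top_of_le_ne_top (by norm_num) hα02
    have hαt : ∀ k, α k ≠ ⊤ := fun k => ne_top_of_le_ne_top hα0t (hα (Nat.zero_le k))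
    have hαb : ∀ k, k ≤ Hm → α k ≤ 2 * hsI.b k := by
      intro k hk
      have h1 : δ ≤ hsI.b k := by
        calc δ = δ * 1 := (mul_one _).symm
          _ ≤ δ * (((q * Hm : ℕ) : ℝ≥0∞) * hsI.b Hm) := by gcongr; exact hq Hm hHm0
          _ = (((q * Hm : ℕ) : ℝ≥0∞) * δ) * hsI.b Hm := by ring
          _ ≤ 1 * hsI.b Hm := by gcongr
          _ = hsI.b Hm := one_mul _
          _ ≤ hsI.b k := hsI_anti hk
      calc α k ≤ ak 𝓛 (Hm ^ 3) k + δ := hak' k
        _ ≤ hsI.b k + hsI.b k := add_le_add (ak_le_b _ _ _) h1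
        _ = 2 * hsI.b k := (two_mul _).symm
    obtain ⟨H, hH1, hHHm, hx, hσH⟩ := argmax_enn hαt (σ := 1 / 20) (by norm_num) (by norm_num) Hm hHm0
    have hH0 : (0 : ℝ) < H := by exact_mod_cast hH1
    rcases le_or_gt ((n : ℝ) ^ c1) (H : ℝ) with hcase | hcase
    · -- case A
      have hQH : Q ≤ H := by exact_mod_cast hQn.trans hcase
      have hσH' := hσH (by omega)
      have hαH : 1 ≤ ((20 * H : ℕ) : ℝ≥0∞) * α H := by
        have h1 : α 0 ≤ ∑ k ∈ Finset.range (H + 1), α k :=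
          Finset.single_le_sum (f := α) (fun k _ => zero_le) (Finset.mem_range.2 (Nat.succ_pos H))
        calc (1 : ℝ≥0∞) = 20 * (ENNReal.ofReal (1 / 20) * 1) := by
              rw [mul_one]
              have : (20 : ℝ≥0∞) = ENNReal.ofReal 20 := by norm_num
              rw [this, ← ENNReal.ofReal_mul (by norm_num)]
              norm_num
          _ ≤ 20 * (ENNReal.ofReal (1 / 20) * ∑ k ∈ Finset.range (H + 1), α k) := by
              gcongr
              exact hα0.trans h1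
          _ ≤ 20 * (H * α H) := by gcongr
          _ = _ := by push_cast; ring
      have hδH : 2 * δ ≤ α H := by
        calc 2 * δ = 2 * δ * 1 := (mul_one _).symm
          _ ≤ 2 * δ * (((20 * H : ℕ) : ℝ≥0∞) * α H) := by gcongr
          _ = (((40 * H : ℕ) : ℝ≥0∞) * δ) * α H := by push_cast; ring
          _ ≤ (((40 * Hm : ℕ) : ℝ≥0∞) * δ) * α H := by gcongr
          _ ≤ 1 * α H := by gcongr
          _ = α H := one_mul _
      have hα2 : ∀ k, H / 2 ≤ k → k ≤ H → α H ≤ 2 * ak 𝓛 (Hm ^ 3) k := by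
        intro k _ hk
        have h1 : 2 * α H ≤ 2 * ak 𝓛 (Hm ^ 3) k + α H := by
          calc 2 * α H ≤ 2 * α k := by gcongr; exact hα hk
            _ ≤ 2 * (ak 𝓛 (Hm ^ 3) k + δ) := by gcongr; exact hak' k
            _ = 2 * ak 𝓛 (Hm ^ 3) k + 2 * δ := mul_add _ _ _
            _ ≤ _ := by gcongr
        rw [two_mul (α H)] at h1
        exact (ENNReal.add_le_add_iff_right (hαt H)).1 h1
      have hres := hcA n n' J (Hm ^ 3) H 𝓛 α ⟨by omega, hJ1, hJ5⟩ hnn hev (by omega)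
        (by
          calc CA * H ^ 2 ≤ Hm * Hm ^ 2 := by gcongr; omega
            _ = Hm ^ 3 := by ring)
        (by
          calc CA * Hm ^ 3 * H ^ CA ≤ CA * Hm ^ 3 * Hm ^ CA := by gcongr
            _ = CA * Hm ^ (3 + CA) := by ring
            _ ≤ Q * Hm ^ E := Nat.mul_le_mul (by omega) (hpw _ (by omega))
            _ ≤ J := hQJ')
        hα hak hα0 hα0t (fun k hk => hαb k (by omega)) hα2 hσH'
        (fun x hx1 hx2 => hx x hx1 (by omega))
      have h3 : (H : ℝ) ^ (-(1 / 1000) : ℝ) ≤ (n : ℝ) ^ (-e) := by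
        calc (H : ℝ) ^ (-(1 / 1000) : ℝ) ≤ ((n : ℝ) ^ c1) ^ (-(1 / 1000) : ℝ) :=
              Real.rpow_le_rpow_of_nonpos (by positivity) hcase (by norm_num)
          _ = (n : ℝ) ^ (-e) := by
              rw [← Real.rpow_mul hn0.le, he]
              congr 1
              ring
      have h4 : (H : ℝ≥0∞) ^ CA / J ≤ ENNReal.ofReal ((n : ℝ) ^ (-e)) := by
        have := herr CA (by omega) (H ^ CA) (Nat.pow_le_pow_left hHHm _)
        rwa [Nat.cast_pow] at this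
      refine hres.trans ?_
      calc (CA : ℝ≥0∞) * (ENNReal.ofReal ((H : ℝ) ^ (-(1 / 1000) : ℝ)) + (H : ℝ≥0∞) ^ CA / J)
          ≤ CA * (ENNReal.ofReal ((n : ℝ) ^ (-e)) + ENNReal.ofReal ((n : ℝ) ^ (-e))) := by gcongr
        _ = ENNReal.ofReal (2 * CA * (n : ℝ) ^ (-e)) := by
            rw [← ENNReal.ofReal_natCast CA, ← ENNReal.ofReal_add (by positivity) (by positivity),
              ← ENNReal.ofReal_mul (by positivity)]
            congr 1
            ring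
        _ ≤ _ := by
            refine ENNReal.ofReal_le_ofReal (mul_le_mul_of_nonneg_right ?_ (by positivity))
            have : (0 : ℝ) ≤ CB := Nat.cast_nonneg _
            linarith
    · -- case B
      obtain ⟨R, hR⟩ : ∃ R, R = Hm / 16 := ⟨_, rfl⟩
      have hR1 : 1 ≤ R := by omega
      have hR0 : (0 : ℝ) < R := by exact_mod_cast hR1
      have hsum : ∑ k ∈ Finset.range (16 * R + 1), α k ≤
          ENNReal.ofReal ((8 * (n : ℝ) ^ c1) * (R : ℝ) ^ (1 / 20 : ℝ)) := by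
        have h1 : ∑ k ∈ Finset.range (H + 1), α k ≤ ENNReal.ofReal (4 * (n : ℝ) ^ c1) := by
          calc ∑ k ∈ Finset.range (H + 1), α k ≤ ∑ k ∈ Finset.range (H + 1), (2 : ℝ≥0∞) :=
                Finset.sum_le_sum fun k _ => (hα (Nat.zero_le k)).trans hα02
            _ = ((2 * (H + 1) : ℕ) : ℝ≥0∞) := by
                rw [Finset.sum_const, Finset.card_range, nsmul_eq_mul]
                push_cast
                ring
            _ ≤ ((4 * H : ℕ) : ℝ≥0∞) := by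
                have : 2 * (H + 1) ≤ 4 * H := by omega
                exact_mod_cast this
            _ = ENNReal.ofReal ((4 * H : ℕ) : ℝ) := (ENNReal.ofReal_natCast _).symm
            _ ≤ _ := by
                refine ENNReal.ofReal_le_ofReal ?_
                push_cast
                linarith
        have h2 : (((16 * R : ℕ) : ℝ) / H) ^ (1 / 20 : ℝ) ≤ 2 * (R : ℝ) ^ (1 / 20 : ℝ) := by
          have hH1r : (1 : ℝ) ≤ H := by exact_mod_cast hH1
          calc (((16 * R : ℕ) : ℝ) / H) ^ (1 / 20 : ℝ) ≤ (16 * R) ^ (1 / 20 : ℝ) := by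
                refine Real.rpow_le_rpow (by positivity) ?_ (by norm_num)
                push_cast
                exact div_le_self (by positivity) hH1r
            _ = 16 ^ (1 / 20 : ℝ) * (R : ℝ) ^ (1 / 20 : ℝ) := Real.mul_rpow (by norm_num) hR0.le
            _ ≤ 2 * (R : ℝ) ^ (1 / 20 : ℝ) := by
                refine mul_le_mul_of_nonneg_right ?_ (by positivity)
                calc (16 : ℝ) ^ (1 / 20 : ℝ) ≤ 16 ^ (1 / 4 : ℝ) :=
                      Real.rpow_le_rpow_of_exponent_le (by norm_num) (by norm_num)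
                  _ = (2 ^ (4 : ℝ)) ^ (1 / 4 : ℝ) := by norm_num
                  _ = 2 := by
                      rw [← Real.rpow_mul (by norm_num)]
                      norm_num
        calc ∑ k ∈ Finset.range (16 * R + 1), α k
            ≤ ENNReal.ofReal ((((16 * R : ℕ) : ℝ) / H) ^ (1 / 20 : ℝ)) * ∑ k ∈ Finset.range (H + 1), α k :=
              hx (16 * R) (by omega) (by omega)
          _ ≤ ENNReal.ofReal (2 * (R : ℝ) ^ (1 / 20 : ℝ)) * ENNReal.ofReal (4 * (n : ℝ) ^ c1) := by gcongr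
          _ = _ := by
              rw [← ENNReal.ofReal_mul (by positivity)]
              congr 1
              ring
      have hres := hcB n n' J (Hm ^ 3) R 𝓛 α (8 * (n : ℝ) ^ c1) ⟨by omega, hJ1, hJ5⟩ hnn hev hR1
        (by
          calc CB * R ^ 2 ≤ Hm * Hm ^ 2 := Nat.mul_le_mul (by omega) (Nat.pow_le_pow_left (by omega) _)
            _ = Hm ^ 3 := by ring) hα hak (by positivity) hsum
      have h32 : (Hm : ℝ) ≤ 32 * R := by
        have : Hm ≤ 32 * R := by omega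
        exact_mod_cast this
      have h3 : (8 * (n : ℝ) ^ c1) ^ 2 * (R : ℝ) ^ (-(3 / 10) : ℝ) ≤ 4096 * (n : ℝ) ^ (-e) := by
        refine (Main_realB hn1 hHm2 h32).trans ?_
        gcongr
      have h4 : (R : ℝ≥0∞) ^ CB / J ≤ ENNReal.ofReal ((n : ℝ) ^ (-e)) := by
        have := herr CB (by omega) (R ^ CB) (Nat.pow_le_pow_left (by omega) _)
        rwa [Nat.cast_pow] at this
      refine hres.trans ?_
      calc (CB : ℝ≥0∞) * (ENNReal.ofReal ((8 * (n : ℝ) ^ c1) ^ 2 * (R : ℝ) ^ (-(3 / 10) : ℝ)) + (R : ℝ≥0∞) ^ CB / J)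
          ≤ CB * (ENNReal.ofReal (4096 * (n : ℝ) ^ (-e)) + ENNReal.ofReal ((n : ℝ) ^ (-e))) := by gcongr
        _ = ENNReal.ofReal (4097 * CB * (n : ℝ) ^ (-e)) := by
            rw [← ENNReal.ofReal_natCast CB, ← ENNReal.ofReal_add (by positivity) (by positivity),
              ← ENNReal.ofReal_mul (by positivity)]
            congr 1
            ring
        _ ≤ _ := by
            refine ENNReal.ofReal_le_ofReal (mul_le_mul_of_nonneg_right ?_ (by positivity))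
            have : (0 : ℝ) ≤ CA := Nat.cast_nonneg _
            linarith
  -- all `n`
  have hCAr : (1 : ℝ) ≤ CA := by exact_mod_cast hCA1
  have hCBr : (1 : ℝ) ≤ CB := by exact_mod_cast hCB1
  refine ⟨e, 2 * CA + 4097 * CB + N1, he0, by positivity, fun n n' hn hnn => ?_⟩
  have hn1 : (1 : ℝ) ≤ n := by exact_mod_cast hn
  have hn0 : (0 : ℝ) < n := by linarith
  rcases le_or_gt N1 n with h | h
  · refine (hbig n n' h hnn).trans (ENNReal.ofReal_le_ofReal (mul_le_mul_of_nonneg_right ?_ (by positivity)))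
    have : (0 : ℝ) ≤ N1 := Nat.cast_nonneg _
    linarith
  · refine (PP_le_one n n').trans ?_
    rw [← ENNReal.ofReal_one]
    refine ENNReal.ofReal_le_ofReal ?_
    have h1 : (n : ℝ) ≤ N1 := by exact_mod_cast h.le
    have h2 : (n : ℝ) ^ (-1 : ℝ) ≤ (n : ℝ) ^ (-e) := Real.rpow_le_rpow_of_exponent_le hn1 (by linarith)
    calc (1 : ℝ) = n * (n : ℝ) ^ (-1 : ℝ) := by
          rw [Real.rpow_neg_one]
          field_simp
      _ ≤ (2 * CA + 4097 * CB + N1) * (n : ℝ) ^ (-e) := by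
          gcongr
          linarith

end Pool.Agent.EVN
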