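import Pool.Agent.EVN.Stmt
import Pool.Agent.BEX.Reg
import Pool.Agent.GAP.IAc

/-!
Project EVN (MP_8c6f77_pr), block D: elementary facts. `av_le_one`, `ak_le_b`, `ak_zero`, `FM_mono`.
-/

namespace Pool.Agent.EVN

open Pool.Agent.Hhelper14.SAW Pool.Agent.HHP Pool.Agent.HEP Pool.Agent.PLY.G Pool.Agent.BEX.F
open scoped ENNReal

theorem av_le_one (𝓛 : Law) (S : Set (ℤ × ℤ)) : 𝓛.av S ≤ 1 := by
  unfold Law.av
  rw [← 𝓛.tot]
  exact Finset.sum_le_sum fun ω _ => mul_le_of_le_one_right (zero_le) (ind_le_one _)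

theorem av_empty (𝓛 : Law) : 𝓛.av ∅ = 1 := by
  unfold Law.av
  rw [← 𝓛.tot]
  refine Finset.sum_congr rfl fun ω _ => ?_
  rw [ind_true fun z _ => Set.notMem_empty z, mul_one]

theorem ak_le_b (𝓛 : Law) (L k : ℕ) : ak 𝓛 L k ≤ hsI.b k := by
  unfold ak Alph.b
  refine ENNReal.tsum_le_tsum fun l => ?_
  refine mul_le_mul' (ind_mono fun h => ?_) ?_
  · exact h.1
  · exact mul_le_of_le_one_right (zero_le) (av_le_one 𝓛 _)

private lemma Basic_hj {l : List Blk} (h : hj l = 0) : l = [] := by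
  cases l with
  | nil => rfl
  | cons c l =>
    exfalso
    have h1 := htw_pos c.1
    unfold hj at h
    simp only [List.map_cons, List.sum_cons] at h
    omega

theorem VL_nil : VL [] = ∅ := by
  ext z
  simp only [VL, Set.mem_ofPred_eq, Set.mem_empty_iff_false, iff_false]
  rintro ⟨l1, c, l2, u, h, -⟩
  have := congrArg List.length h
  simp at this

theorem ak_zero (𝓛 : Law) (L : ℕ) : ak 𝓛 L 0 = 1 := by
  unfold ak
  rw [tsum_eq_single ([] : List Blk)]
  · rw [ind_true ⟨rfl, Nat.zero_le L⟩, one_mul, VL_nil, av_empty, mul_one]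
    rfl
  · intro l hl
    rw [ind_false fun h => hl (Basic_hj h.1), zero_mul]

theorem FA_mono {v : ℤ × ℤ} {D D' q : ℕ} (h : D ≤ D') : FA v D q ⊆ FA v D' q := by
  rintro η ⟨y, η', h1, h2, h3, h4, h5, h6, h7, h8⟩
  refine ⟨y, η', h1, h2, h3, h4, h5, h6, fun z hz => ⟨(h7 z hz).1, ?_⟩, h8⟩
  have h9 := (h7 z hz).2
  have h10 : (D : ℤ) ≤ D' := by exact_mod_cast h
  exact ⟨h9.1.trans (by linarith), h9.2.trans (by linarith)⟩

theorem FM_mono {v : ℤ × ℤ} {D D' N N' : ℕ} (hD : D ≤ D') (hN : N ≤ N') : FM v D N ≤ FM v D' N' := by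
  unfold FM
  refine (Finset.sum_le_sum fun q _ => ?_).trans
    (Finset.sum_le_sum_of_subset (Finset.range_mono (Nat.succ_le_succ hN)))
  exact ENNReal.tsum_mono_subtype (fun η : List (ℤ × ℤ) => xE ^ (η.length - 1)) (FA_mono hD)

end Pool.Agent.EVN
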