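import Mathlib

/-!
Project EVN (MP_8c6f77_pr), block D: real inequalities for the case of a large argument of the maximum.
-/

namespace Pool.Agent.EVN

/-- Logarithms and powers. -/
theorem natLog_le (R : ℕ) (hR : 1 ≤ R) : ((Nat.log 2 R + 1 : ℕ) : ℝ) ≤ 20001 * (R : ℝ) ^ (1 / 10000 : ℝ) := by
  have hR0 : (0 : ℝ) < R := by exact_mod_cast hR
  have hR1 : (1 : ℝ) ≤ R := by exact_mod_cast hR
  have h1 : (1 : ℝ) ≤ (R : ℝ) ^ (1 / 10000 : ℝ) := Real.one_le_rpow hR1 (by norm_num)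
  have h2 : Real.log R ≤ 10000 * (R : ℝ) ^ (1 / 10000 : ℝ) := by
    have h3 := Real.log_le_rpow_div hR0.le (show (0 : ℝ) < 1 / 10000 by norm_num)
    refine h3.trans (le_of_eq ?_)
    ring
  have h4 : (Nat.log 2 R : ℝ) ≤ 2 * Real.log R := by
    have h5 : (2 : ℝ) ^ (Nat.log 2 R) ≤ R := by exact_mod_cast Nat.pow_log_le_self 2 (by omega)
    have h6 := Real.log_le_log (by positivity) h5
    rw [Real.log_pow] at h6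
    have h7 : (1 : ℝ) / 2 ≤ Real.log 2 := by
      have := Real.log_two_gt_d9
      linarith
    have h8 : (0 : ℝ) ≤ (Nat.log 2 R : ℝ) := Nat.cast_nonneg _
    nlinarith
  push_cast
  linarith

/-- The final inequality of case A. -/
theorem realA {K2 K3 κ Ct ρ h X lg : ℝ} (hK2 : 0 ≤ K2) (hK3 : 0 ≤ K3) (hκ : 0 ≤ κ) (hCt : 0 ≤ Ct) (hρ : 1 ≤ ρ)
    (hh : 1 ≤ h) (hhρ : h ≤ 4 * ρ ^ (2000 / 1999 : ℝ)) (hX1 : ρ ^ (130 / 131 : ℝ) ≤ X) (hX2 : X ≤ 2 * ρ ^ (130 / 131 : ℝ))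
    (hlg0 : 0 ≤ lg) (hlg : lg ≤ 20001 * ρ ^ (1 / 10000 : ℝ)) :
    K3 * h ^ (7 / 4 : ℝ) * ρ ^ (-(3 / 2) : ℝ) * (lg ^ 2 * (K2 * h ^ (7 / 4 : ℝ) * ρ ^ (-2 - 1 / 131 : ℝ) +
      κ * ρ ^ (-(3 / 4) : ℝ) * (Ct * X ^ (1 / 2 : ℝ) + Ct * X ^ (-(1 / 4) : ℝ) *
        (K2 * h ^ (7 / 4 : ℝ) * ρ ^ (-1 - 1 / 131 : ℝ))))) ≤
    K3 * 16 * 20001 ^ 2 * (K2 * 16 + κ * (2 * Ct) + κ * (Ct * K2 * 16)) * 4 * h ^ (-(1 / 1000) : ℝ) := by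
  have hρ0 : 0 < ρ := by linarith
  have hh0 : 0 < h := by linarith
  have hX0 : 0 < X := lt_of_lt_of_le (Real.rpow_pos_of_pos hρ0 _) hX1
  have ht : h ^ (7 / 4 : ℝ) ≤ 16 * ρ ^ (3500 / 1999 : ℝ) := by
    calc h ^ (7 / 4 : ℝ) ≤ (4 * ρ ^ (2000 / 1999 : ℝ)) ^ (7 / 4 : ℝ) :=
          Real.rpow_le_rpow hh0.le hhρ (by norm_num)
      _ = 4 ^ (7 / 4 : ℝ) * ρ ^ (3500 / 1999 : ℝ) := by
          rw [Real.mul_rpow (by norm_num) (by positivity), ← Real.rpow_mul hρ0.le]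
          norm_num
      _ ≤ 16 * ρ ^ (3500 / 1999 : ℝ) := by
          refine mul_le_mul_of_nonneg_right ?_ (by positivity)
          calc (4 : ℝ) ^ (7 / 4 : ℝ) ≤ 4 ^ (2 : ℝ) := Real.rpow_le_rpow_of_exponent_le (by norm_num) (by norm_num)
            _ = 16 := by norm_num
  have hXa : X ^ (1 / 2 : ℝ) ≤ 2 * ρ ^ (65 / 131 : ℝ) := by
    calc X ^ (1 / 2 : ℝ) ≤ (2 * ρ ^ (130 / 131 : ℝ)) ^ (1 / 2 : ℝ) :=
          Real.rpow_le_rpow hX0.le hX2 (by norm_num)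
      _ = 2 ^ (1 / 2 : ℝ) * ρ ^ (65 / 131 : ℝ) := by
          rw [Real.mul_rpow (by norm_num) (by positivity), ← Real.rpow_mul hρ0.le]
          norm_num
      _ ≤ 2 * ρ ^ (65 / 131 : ℝ) := by
          refine mul_le_mul_of_nonneg_right ?_ (by positivity)
          calc (2 : ℝ) ^ (1 / 2 : ℝ) ≤ 2 ^ (1 : ℝ) := Real.rpow_le_rpow_of_exponent_le (by norm_num) (by norm_num)
            _ = 2 := by norm_num
  have hXb : X ^ (-(1 / 4) : ℝ) ≤ ρ ^ (-(65 / 262) : ℝ) := by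
    calc X ^ (-(1 / 4) : ℝ) ≤ (ρ ^ (130 / 131 : ℝ)) ^ (-(1 / 4) : ℝ) :=
          Real.rpow_le_rpow_of_nonpos (by positivity) hX1 (by norm_num)
      _ = ρ ^ (-(65 / 262) : ℝ) := by
          rw [← Real.rpow_mul hρ0.le]
          norm_num
  have hlg2 : lg ^ 2 ≤ 20001 ^ 2 * ρ ^ (1 / 5000 : ℝ) := by
    calc lg ^ 2 ≤ (20001 * ρ ^ (1 / 10000 : ℝ)) ^ 2 := pow_le_pow_left₀ hlg0 hlg 2
      _ = 20001 ^ 2 * ρ ^ (1 / 5000 : ℝ) := by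
          rw [mul_pow, ← Real.rpow_natCast (ρ ^ (1 / 10000 : ℝ)) 2, ← Real.rpow_mul hρ0.le]
          norm_num
  have hfin : ρ ^ (-(1 / 400) : ℝ) ≤ 4 * h ^ (-(1 / 1000) : ℝ) := by
    have h1 : h ^ (1 / 1000 : ℝ) ≤ 4 * ρ ^ (1 / 400 : ℝ) := by
      calc h ^ (1 / 1000 : ℝ) ≤ (4 * ρ ^ (2000 / 1999 : ℝ)) ^ (1 / 1000 : ℝ) :=
            Real.rpow_le_rpow hh0.le hhρ (by norm_num)
        _ = 4 ^ (1 / 1000 : ℝ) * ρ ^ (2 / 1999 : ℝ) := by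
            rw [Real.mul_rpow (by norm_num) (by positivity), ← Real.rpow_mul hρ0.le]
            norm_num
        _ ≤ 4 * ρ ^ (1 / 400 : ℝ) := by
            refine mul_le_mul ?_ ?_ (by positivity) (by norm_num)
            · calc (4 : ℝ) ^ (1 / 1000 : ℝ) ≤ 4 ^ (1 : ℝ) :=
                    Real.rpow_le_rpow_of_exponent_le (by norm_num) (by norm_num)
                _ = 4 := by norm_num
            · exact Real.rpow_le_rpow_of_exponent_le hρ (by norm_num)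
    rw [Real.rpow_neg hρ0.le, Real.rpow_neg hh0.le, inv_eq_one_div, ← div_eq_mul_inv,
      div_le_div_iff₀ (by positivity) (by positivity), one_mul]
    exact h1
  -- powers of ρ
  have e1 : ρ ^ (3500 / 1999 : ℝ) * ρ ^ (-(3 / 2) : ℝ) * (ρ ^ (1 / 5000 : ℝ) *
      (ρ ^ (3500 / 1999 : ℝ) * ρ ^ (-2 - 1 / 131 : ℝ))) ≤ ρ ^ (-(1 / 400) : ℝ) := by
    rw [← Real.rpow_add hρ0, ← Real.rpow_add hρ0, ← Real.rpow_add hρ0, ← Real.rpow_add hρ0]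
    exact Real.rpow_le_rpow_of_exponent_le hρ (by norm_num)
  have e2 : ρ ^ (3500 / 1999 : ℝ) * ρ ^ (-(3 / 2) : ℝ) * (ρ ^ (1 / 5000 : ℝ) *
      (ρ ^ (-(3 / 4) : ℝ) * ρ ^ (65 / 131 : ℝ))) ≤ ρ ^ (-(1 / 400) : ℝ) := by
    rw [← Real.rpow_add hρ0, ← Real.rpow_add hρ0, ← Real.rpow_add hρ0, ← Real.rpow_add hρ0]
    exact Real.rpow_le_rpow_of_exponent_le hρ (by norm_num)
  have e3 : ρ ^ (3500 / 1999 : ℝ) * ρ ^ (-(3 / 2) : ℝ) * (ρ ^ (1 / 5000 : ℝ) *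
      (ρ ^ (-(3 / 4) : ℝ) * (ρ ^ (-(65 / 262) : ℝ) * (ρ ^ (3500 / 1999 : ℝ) * ρ ^ (-1 - 1 / 131 : ℝ))))) ≤
      ρ ^ (-(1 / 400) : ℝ) := by
    rw [← Real.rpow_add hρ0, ← Real.rpow_add hρ0, ← Real.rpow_add hρ0, ← Real.rpow_add hρ0,
      ← Real.rpow_add hρ0, ← Real.rpow_add hρ0]
    exact Real.rpow_le_rpow_of_exponent_le hρ (by norm_num)
  calc K3 * h ^ (7 / 4 : ℝ) * ρ ^ (-(3 / 2) : ℝ) * (lg ^ 2 * (K2 * h ^ (7 / 4 : ℝ) * ρ ^ (-2 - 1 / 131 : ℝ) +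
      κ * ρ ^ (-(3 / 4) : ℝ) * (Ct * X ^ (1 / 2 : ℝ) + Ct * X ^ (-(1 / 4) : ℝ) *
        (K2 * h ^ (7 / 4 : ℝ) * ρ ^ (-1 - 1 / 131 : ℝ)))))
      ≤ K3 * (16 * ρ ^ (3500 / 1999 : ℝ)) * ρ ^ (-(3 / 2) : ℝ) * ((20001 ^ 2 * ρ ^ (1 / 5000 : ℝ)) *
        (K2 * (16 * ρ ^ (3500 / 1999 : ℝ)) * ρ ^ (-2 - 1 / 131 : ℝ) +
        κ * ρ ^ (-(3 / 4) : ℝ) * (Ct * (2 * ρ ^ (65 / 131 : ℝ)) + Ct * ρ ^ (-(65 / 262) : ℝ) *
          (K2 * (16 * ρ ^ (3500 / 1999 : ℝ)) * ρ ^ (-1 - 1 / 131 : ℝ))))) := by gcongr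
    _ = K3 * 16 * 20001 ^ 2 * (K2 * 16 * (ρ ^ (3500 / 1999 : ℝ) * ρ ^ (-(3 / 2) : ℝ) * (ρ ^ (1 / 5000 : ℝ) *
          (ρ ^ (3500 / 1999 : ℝ) * ρ ^ (-2 - 1 / 131 : ℝ)))) +
        κ * (2 * Ct) * (ρ ^ (3500 / 1999 : ℝ) * ρ ^ (-(3 / 2) : ℝ) * (ρ ^ (1 / 5000 : ℝ) *
          (ρ ^ (-(3 / 4) : ℝ) * ρ ^ (65 / 131 : ℝ)))) +
        κ * (Ct * K2 * 16) * (ρ ^ (3500 / 1999 : ℝ) * ρ ^ (-(3 / 2) : ℝ) * (ρ ^ (1 / 5000 : ℝ) *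
          (ρ ^ (-(3 / 4) : ℝ) * (ρ ^ (-(65 / 262) : ℝ) * (ρ ^ (3500 / 1999 : ℝ) * ρ ^ (-1 - 1 / 131 : ℝ))))))) := by
        ring
    _ ≤ K3 * 16 * 20001 ^ 2 * (K2 * 16 * ρ ^ (-(1 / 400) : ℝ) + κ * (2 * Ct) * ρ ^ (-(1 / 400) : ℝ) +
        κ * (Ct * K2 * 16) * ρ ^ (-(1 / 400) : ℝ)) := by gcongr
    _ = K3 * 16 * 20001 ^ 2 * (K2 * 16 + κ * (2 * Ct) + κ * (Ct * K2 * 16)) * ρ ^ (-(1 / 400) : ℝ) := by ring
    _ ≤ K3 * 16 * 20001 ^ 2 * (K2 * 16 + κ * (2 * Ct) + κ * (Ct * K2 * 16)) * (4 * h ^ (-(1 / 1000) : ℝ)) := by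
        gcongr
    _ = _ := by ring

/-- The radius. -/
noncomputable def rad (H : ℕ) : ℕ := ⌊(H : ℝ) ^ (1999 / 2000 : ℝ)⌋₊

theorem rad_le {H : ℕ} : (rad H : ℝ) ≤ (H : ℝ) ^ (1999 / 2000 : ℝ) := Nat.floor_le (by positivity)

theorem le_rad {H : ℕ} (h : 1 ≤ rad H) : (H : ℝ) ≤ 4 * (rad H : ℝ) ^ (2000 / 1999 : ℝ) := by
  have h1 : (H : ℝ) ^ (1999 / 2000 : ℝ) < rad H + 1 := Nat.lt_floor_add_one _
  have h2 : (1 : ℝ) ≤ rad H := by exact_mod_cast h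
  have hH : (0 : ℝ) ≤ H := Nat.cast_nonneg H
  calc (H : ℝ) = ((H : ℝ) ^ (1999 / 2000 : ℝ)) ^ (2000 / 1999 : ℝ) := by
        rw [← Real.rpow_mul hH]
        norm_num
    _ ≤ (2 * rad H) ^ (2000 / 1999 : ℝ) := Real.rpow_le_rpow (by positivity) (by linarith) (by norm_num)
    _ = 2 ^ (2000 / 1999 : ℝ) * (rad H : ℝ) ^ (2000 / 1999 : ℝ) := Real.mul_rpow (by norm_num) (by positivity)
    _ ≤ 4 * (rad H : ℝ) ^ (2000 / 1999 : ℝ) := by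
        refine mul_le_mul_of_nonneg_right ?_ (by positivity)
        calc (2 : ℝ) ^ (2000 / 1999 : ℝ) ≤ 2 ^ (2 : ℝ) :=
              Real.rpow_le_rpow_of_exponent_le (by norm_num) (by norm_num)
          _ = 4 := by norm_num

/-- The radius is large, and small with respect to `H`, even after multiplication by logarithms. -/
theorem rad_spec (C : ℕ) : ∃ H1 : ℕ, 1 ≤ H1 ∧ ∀ H : ℕ, H1 ≤ H → C ≤ rad H ∧ 1 ≤ rad H ∧ 16 * rad H ≤ H ∧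
    C * rad H * (Nat.log 2 H + 1) ^ 4 ≤ H := by
  have t1 : Filter.Tendsto (fun H : ℕ => (H : ℝ) ^ (1 / 10000 : ℝ)) Filter.atTop Filter.atTop :=
    (tendsto_rpow_atTop (by norm_num)).comp tendsto_natCast_atTop_atTop
  have t2 : Filter.Tendsto (fun H : ℕ => (H : ℝ) ^ (1999 / 2000 : ℝ)) Filter.atTop Filter.atTop :=
    (tendsto_rpow_atTop (by norm_num)).comp tendsto_natCast_atTop_atTop
  obtain ⟨H1, h1⟩ := Filter.eventually_atTop.1 ((t1.eventually_ge_atTop ((C + 16) * 20001 ^ 4)).and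
    ((t2.eventually_ge_atTop ((C : ℝ) + 1)).and (Filter.eventually_ge_atTop 1)))
  refine ⟨H1 + 1, by omega, fun H hH => ?_⟩
  obtain ⟨h2, h3, h4⟩ := h1 H (by omega)
  have hH1 : (1 : ℝ) ≤ H := by exact_mod_cast h4
  have hH0 : (0 : ℝ) < H := by linarith
  have hr : C + 1 ≤ rad H := Nat.le_floor (by push_cast; exact h3)
  have hl1 : (1 : ℝ) ≤ ((Nat.log 2 H + 1 : ℕ) : ℝ) := by exact_mod_cast Nat.succ_le_succ (Nat.zero_le _)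
  have hmain : ((C : ℝ) + 16) * rad H * ((Nat.log 2 H + 1 : ℕ) : ℝ) ^ 4 ≤ H := by
    calc ((C : ℝ) + 16) * rad H * ((Nat.log 2 H + 1 : ℕ) : ℝ) ^ 4
        ≤ ((C : ℝ) + 16) * (H : ℝ) ^ (1999 / 2000 : ℝ) * (20001 * (H : ℝ) ^ (1 / 10000 : ℝ)) ^ 4 := by
          gcongr
          · exact rad_le
          · exact natLog_le H h4
      _ = ((C + 16) * 20001 ^ 4) * ((H : ℝ) ^ (1999 / 2000 : ℝ) * (H : ℝ) ^ (1 / 2500 : ℝ)) := by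
          rw [mul_pow, ← Real.rpow_natCast ((H : ℝ) ^ (1 / 10000 : ℝ)) 4, ← Real.rpow_mul hH0.le]
          norm_num
          ring
      _ ≤ (H : ℝ) ^ (1 / 10000 : ℝ) * ((H : ℝ) ^ (1999 / 2000 : ℝ) * (H : ℝ) ^ (1 / 2500 : ℝ)) := by
          gcongr
      _ = (H : ℝ) ^ (1 : ℝ) := by
          rw [← Real.rpow_add hH0, ← Real.rpow_add hH0]
          norm_num
      _ = H := Real.rpow_one _
  refine ⟨by omega, by omega, ?_, ?_⟩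
  · have h5 : (16 : ℝ) * rad H ≤ H := by
      refine le_trans ?_ hmain
      have h6 : (1 : ℝ) ≤ ((Nat.log 2 H + 1 : ℕ) : ℝ) ^ 4 := one_le_pow₀ hl1
      have h7 : (0 : ℝ) ≤ rad H := Nat.cast_nonneg _
      have h8 : (0 : ℝ) ≤ C := Nat.cast_nonneg _
      calc (16 : ℝ) * rad H = 16 * rad H * 1 := by ring
        _ ≤ ((C : ℝ) + 16) * rad H * ((Nat.log 2 H + 1 : ℕ) : ℝ) ^ 4 := by
          gcongr
          linarith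
    exact_mod_cast h5
  · have h5 : (C : ℝ) * rad H * ((Nat.log 2 H + 1 : ℕ) : ℝ) ^ 4 ≤ H := by
      refine le_trans ?_ hmain
      gcongr
      linarith
    exact_mod_cast h5

end Pool.Agent.EVN
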