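import Pool.Agent.EVN.D.Basic

/-!
Project EVN (MP_8c6f77_pr), block D: `PMain` and `WMain` together.
-/

namespace Pool.Agent.EVN

open Pool.Agent.Hhelper14.SAW Pool.Agent.HHP Pool.Agent.HEP Pool.Agent.PLY.G Pool.Agent.BEX.F
open scoped ENNReal

/-- The value at `R / 4` is at most four times the mean over `[0, 16 R]`. -/
private lemma Red_mean {α : ℕ → ℝ≥0∞} (hα : Antitone α) {R : ℕ} (hR : 1 ≤ R) :
    α (R / 4) ≤ 4 * ((∑ k ∈ Finset.range (16 * R + 1), α k) / R) := by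
  have hR0 : (R : ℝ≥0∞) ≠ 0 := by exact_mod_cast (by omega : R ≠ 0)
  have hRt : (R : ℝ≥0∞) ≠ ⊤ := ENNReal.natCast_ne_top R
  have h1 : ((R / 4 + 1 : ℕ) : ℝ≥0∞) * α (R / 4) ≤ ∑ k ∈ Finset.range (16 * R + 1), α k := by
    calc ((R / 4 + 1 : ℕ) : ℝ≥0∞) * α (R / 4) = ∑ k ∈ Finset.range (R / 4 + 1), α (R / 4) := by
          rw [Finset.sum_const, Finset.card_range, nsmul_eq_mul]
      _ ≤ ∑ k ∈ Finset.range (R / 4 + 1), α k := Finset.sum_le_sum fun k hk => hα (by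
          rw [Finset.mem_range] at hk; omega)
      _ ≤ _ := Finset.sum_le_sum_of_subset (Finset.range_mono (by omega))
  rw [← mul_div_assoc, ENNReal.le_div_iff_mul_le (Or.inl hR0) (Or.inl hRt)]
  calc α (R / 4) * R ≤ α (R / 4) * ((4 * (R / 4 + 1) : ℕ) : ℝ≥0∞) := by
        gcongr
        omega
    _ = 4 * (((R / 4 + 1 : ℕ) : ℝ≥0∞) * α (R / 4)) := by
        push_cast
        ring
    _ ≤ _ := by gcongr

theorem red (hP : PMain) (hW : WMain) : ∃ C : ℕ, 1 ≤ C ∧ ∀ (n n' J R L : ℕ) (𝓛 : Law) (α : ℕ → ℝ≥0∞),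
    Adm C n J → n ≤ n' → IsEv n n' J 𝓛 → 1 ≤ R → C * R ^ 2 ≤ L → Antitone α → (∀ k, ak 𝓛 L k ≤ α k) →
    PP n n' ≤
      C * (MM R * ((∑ k ∈ Finset.range (16 * R + 1), α k) / R) * (((Nat.log 2 R + 1 : ℕ) : ℝ≥0∞) ^ 2 *
        ((∑ k ∈ Finset.range (16 * R + 1), α k) / R +
          (hsI.U R)⁻¹ * ∑ y ∈ Finset.range (16 * R + 1), hsI.b y * α y)) + (R : ℝ≥0∞) ^ C / J) := by
  obtain ⟨C1, K0, n0, hP⟩ := hP
  obtain ⟨C2, hW⟩ := hW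
  refine ⟨C1 * (1 + 4 * C2) + K0 + n0 + 1, by omega, ?_⟩
  set C : ℕ := C1 * (1 + 4 * C2) + K0 + n0 + 1 with hC
  intro n n' J R L 𝓛 α hadm hnn hev hR hL hα hak
  set A : ℝ≥0∞ := ∑ k ∈ Finset.range (16 * R + 1), α k with hA
  set Θ : ℝ≥0∞ := ∑ y ∈ Finset.range (16 * R + 1), hsI.b y * α y with hΘ
  set Lg : ℝ≥0∞ := ((Nat.log 2 R + 1 : ℕ) : ℝ≥0∞) ^ 2 with hLg
  have hLg1 : 1 ≤ Lg := by
    rw [hLg]
    have h1 : (1 : ℝ≥0∞) ≤ ((Nat.log 2 R + 1 : ℕ) : ℝ≥0∞) := by exact_mod_cast Nat.succ_le_succ (Nat.zero_le _)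
    exact one_le_pow₀ h1
  have h1 := hP n n' J R L 𝓛 α (C2 * Lg * (α (R / 4) + (hsI.U R)⁻¹ * Θ)) ⟨by have := hadm.1; omega, hadm.2⟩ hnn hev hR
    (by
      calc K0 * R ^ 2 ≤ C * R ^ 2 := by gcongr; omega
        _ ≤ L := hL) hα hak
    (fun D hD1 hD2 => hW R L D 𝓛 α hR hα hak hD1 hD2)
  have h4 : (∑ k ∈ Finset.range (4 * R + 1), α k) ≤ A :=
    Finset.sum_le_sum_of_subset (Finset.range_mono (by omega))
  refine h1.trans ?_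
  have h5 : A / R + C2 * Lg * (α (R / 4) + (hsI.U R)⁻¹ * Θ) ≤
      ((1 + 4 * C2 : ℕ) : ℝ≥0∞) * (Lg * (A / R + (hsI.U R)⁻¹ * Θ)) := by
    calc A / R + C2 * Lg * (α (R / 4) + (hsI.U R)⁻¹ * Θ)
        ≤ 1 * (A / R) + C2 * Lg * (4 * (A / R) + (hsI.U R)⁻¹ * Θ) := by
          rw [one_mul]
          gcongr
          exact Red_mean hα hR
      _ ≤ Lg * (A / R + (hsI.U R)⁻¹ * Θ) + C2 * Lg * (4 * (A / R) + 4 * ((hsI.U R)⁻¹ * Θ)) := by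
          refine add_le_add (mul_le_mul' hLg1 le_self_add) (mul_le_mul' le_rfl (add_le_add le_rfl ?_))
          calc (hsI.U R)⁻¹ * Θ = 1 * ((hsI.U R)⁻¹ * Θ) := (one_mul _).symm
            _ ≤ 4 * ((hsI.U R)⁻¹ * Θ) := by
              gcongr
              norm_num
      _ = _ := by push_cast; ring
  have hR1 : (1 : ℝ≥0∞) ≤ R := by exact_mod_cast hR
  calc (C1 : ℝ≥0∞) * (MM R * ((∑ k ∈ Finset.range (4 * R + 1), α k) / R) *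
        ((∑ k ∈ Finset.range (4 * R + 1), α k) / R + C2 * Lg * (α (R / 4) + (hsI.U R)⁻¹ * Θ)) + (R : ℝ≥0∞) ^ K0 / J)
      ≤ C1 * (MM R * (A / R) * (A / R + C2 * Lg * (α (R / 4) + (hsI.U R)⁻¹ * Θ)) + (R : ℝ≥0∞) ^ K0 / J) := by
        gcongr
    _ ≤ C1 * (MM R * (A / R) * (((1 + 4 * C2 : ℕ) : ℝ≥0∞) * (Lg * (A / R + (hsI.U R)⁻¹ * Θ))) +
          ((1 + 4 * C2 : ℕ) : ℝ≥0∞) * ((R : ℝ≥0∞) ^ C / J)) := by
        gcongr
        calc (R : ℝ≥0∞) ^ K0 / J ≤ (R : ℝ≥0∞) ^ C / J := by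
              gcongr
              omega
          _ = 1 * ((R : ℝ≥0∞) ^ C / J) := (one_mul _).symm
          _ ≤ _ := by
              gcongr
              exact_mod_cast (by omega : 1 ≤ 1 + 4 * C2)
    _ = ((C1 * (1 + 4 * C2) : ℕ) : ℝ≥0∞) * (MM R * (A / R) * (Lg * (A / R + (hsI.U R)⁻¹ * Θ)) +
          (R : ℝ≥0∞) ^ C / J) := by
        push_cast
        ring
    _ ≤ _ := by
        gcongr
        omega

end Pool.Agent.EVN
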