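import Pool.Agent.EVN.D.Basic

/-!
Project EVN (MP_8c6f77_pr), block D: the sum `∑ b(y) α(y)`, bounds of `U` and `b` by powers.
-/

namespace Pool.Agent.EVN

open Pool.Agent.Hhelper14.SAW Pool.Agent.HHP Pool.Agent.HEP Pool.Agent.PLY.G Pool.Agent.BEX.F
open scoped ENNReal

private lemma Theta_sq (y : ℕ) : (1 : ℝ) / 2 * ((y : ℝ) + 1) ^ (-(1 / 2) : ℝ) ≤
    ((y : ℝ) + 1) ^ (1 / 2 : ℝ) - (y : ℝ) ^ (1 / 2 : ℝ) := by
  have hy : (0 : ℝ) ≤ y := Nat.cast_nonneg y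
  have h0 : (0 : ℝ) < (y : ℝ) + 1 := by linarith
  have h1 : (y : ℝ) = ((y : ℝ) + 1) * (1 + -(1 / ((y : ℝ) + 1))) := by field_simp; ring
  have h6 : 1 / ((y : ℝ) + 1) ≤ 1 := by rw [div_le_one h0]; linarith
  have h2 : (1 + -(1 / ((y : ℝ) + 1))) ^ (1 / 2 : ℝ) ≤ 1 + (1 / 2) * -(1 / ((y : ℝ) + 1)) :=
    rpow_one_add_le_one_add_mul_self (by linarith) (by norm_num) (by norm_num)
  have h4 : ((y : ℝ) + 1) ^ (-(1 / 2) : ℝ) = ((y : ℝ) + 1) ^ (1 / 2 : ℝ) * (1 / ((y : ℝ) + 1)) := by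
    rw [one_div ((y : ℝ) + 1), ← Real.rpow_neg_one, ← Real.rpow_add h0]
    norm_num
  have h5 : (y : ℝ) ^ (1 / 2 : ℝ) ≤ ((y : ℝ) + 1) ^ (1 / 2 : ℝ) * (1 + (1 / 2) * -(1 / ((y : ℝ) + 1))) := by
    calc (y : ℝ) ^ (1 / 2 : ℝ) = (((y : ℝ) + 1) * (1 + -(1 / ((y : ℝ) + 1)))) ^ (1 / 2 : ℝ) := by rw [← h1]
      _ = ((y : ℝ) + 1) ^ (1 / 2 : ℝ) * (1 + -(1 / ((y : ℝ) + 1))) ^ (1 / 2 : ℝ) :=
        Real.mul_rpow h0.le (by linarith)
      _ ≤ _ := mul_le_mul_of_nonneg_left h2 (by positivity)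
  rw [h4]
  linarith

private lemma Theta_sum (n : ℕ) : ∑ k ∈ Finset.range n, ((k : ℝ) + 1) ^ (-(1 / 2) : ℝ) ≤ 2 * (n : ℝ) ^ (1 / 2 : ℝ) := by
  induction n with
  | zero => simp
  | succ n ih =>
    rw [Finset.sum_range_succ]
    push_cast
    have := Theta_sq n
    linarith

/-- `∑_(y ≤ M) b(y) α(y) ≤ C X^(1/2) + C X^(-1/4) ∑_(y ≤ M) α(y)`. -/
theorem theta_le : ∃ C : ℝ, 1 ≤ C ∧ ∀ (α : ℕ → ℝ≥0∞) (X M : ℕ), 1 ≤ X → (∀ y, y < X → α y ≤ 2 * hsI.b y) →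
    ∑ y ∈ Finset.range (M + 1), hsI.b y * α y ≤ ENNReal.ofReal (C * (X : ℝ) ^ (1 / 2 : ℝ)) +
      ENNReal.ofReal (C * (X : ℝ) ^ (-(1 / 4) : ℝ)) * ∑ y ∈ Finset.range (M + 1), α y := by
  obtain ⟨c, C, hc, hC, h⟩ := hsI_quarter
  refine ⟨max 1 (4 * C ^ 2 + C), le_max_left _ _, fun α X M hX hα => ?_⟩
  set C' : ℝ := max 1 (4 * C ^ 2 + C) with hC'
  have hX0 : (0 : ℝ) < X := by exact_mod_cast hX
  -- termwise
  have hterm : ∀ y ∈ Finset.range (M + 1), hsI.b y * α y ≤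
      (if y < X then ENNReal.ofReal (2 * C ^ 2 * ((y : ℝ) + 1) ^ (-(1 / 2) : ℝ)) else 0) +
      ENNReal.ofReal (C' * (X : ℝ) ^ (-(1 / 4) : ℝ)) * α y := by
    intro y _
    by_cases hy : y < X
    · rw [if_pos hy]
      refine le_trans ?_ le_self_add
      calc hsI.b y * α y ≤ hsI.b y * (2 * hsI.b y) := by gcongr; exact hα y hy
        _ ≤ ENNReal.ofReal (C * ((y : ℝ) + 1) ^ (-(1 / 4) : ℝ)) * (2 * ENNReal.ofReal (C * ((y : ℝ) + 1) ^ (-(1 / 4) : ℝ))) := by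
            gcongr
            · exact (h y).2
            · exact (h y).2
        _ = ENNReal.ofReal (2 * C ^ 2 * ((y : ℝ) + 1) ^ (-(1 / 2) : ℝ)) := by
            have h0 : (0 : ℝ) < (y : ℝ) + 1 := by positivity
            rw [show (2 : ℝ≥0∞) = ENNReal.ofReal 2 by simp, ← ENNReal.ofReal_mul (by norm_num),
              ← ENNReal.ofReal_mul (by positivity)]
            congr 1
            have h5 : ((y : ℝ) + 1) ^ (-(1 / 4) : ℝ) * ((y : ℝ) + 1) ^ (-(1 / 4) : ℝ) = ((y : ℝ) + 1) ^ (-(1 / 2) : ℝ) := by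
              rw [← Real.rpow_add h0]; norm_num
            rw [← h5]
            ring
    · rw [if_neg hy, zero_add]
      gcongr
      refine (h y).2.trans (ENNReal.ofReal_le_ofReal ?_)
      have h1 : ((y : ℝ) + 1) ^ (-(1 / 4) : ℝ) ≤ (X : ℝ) ^ (-(1 / 4) : ℝ) := by
        refine Real.rpow_le_rpow_of_nonpos hX0 ?_ (by norm_num)
        have : (X : ℝ) ≤ y := by exact_mod_cast not_lt.1 hy
        linarith
      have h2 : C ≤ C' := by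
        have := le_max_right 1 (4 * C ^ 2 + C)
        nlinarith [sq_nonneg C]
      calc C * ((y : ℝ) + 1) ^ (-(1 / 4) : ℝ) ≤ C * (X : ℝ) ^ (-(1 / 4) : ℝ) := mul_le_mul_of_nonneg_left h1 hC.le
        _ ≤ C' * (X : ℝ) ^ (-(1 / 4) : ℝ) := mul_le_mul_of_nonneg_right h2 (by positivity)
  refine (Finset.sum_le_sum hterm).trans ?_
  rw [Finset.sum_add_distrib, ← Finset.mul_sum]
  refine add_le_add ?_ le_rfl
  calc ∑ y ∈ Finset.range (M + 1), (if y < X then ENNReal.ofReal (2 * C ^ 2 * ((y : ℝ) + 1) ^ (-(1 / 2) : ℝ)) else 0)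
      = ∑ y ∈ (Finset.range (M + 1)).filter (· < X), ENNReal.ofReal (2 * C ^ 2 * ((y : ℝ) + 1) ^ (-(1 / 2) : ℝ)) :=
        (Finset.sum_filter _ _).symm
    _ ≤ ∑ y ∈ Finset.range X, ENNReal.ofReal (2 * C ^ 2 * ((y : ℝ) + 1) ^ (-(1 / 2) : ℝ)) :=
        Finset.sum_le_sum_of_subset fun y hy => Finset.mem_range.2 (Finset.mem_filter.1 hy).2
    _ = ENNReal.ofReal (∑ y ∈ Finset.range X, 2 * C ^ 2 * ((y : ℝ) + 1) ^ (-(1 / 2) : ℝ)) :=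
        (ENNReal.ofReal_sum_of_nonneg fun y _ => by positivity).symm
    _ ≤ ENNReal.ofReal (C' * (X : ℝ) ^ (1 / 2 : ℝ)) := by
        refine ENNReal.ofReal_le_ofReal ?_
        rw [← Finset.mul_sum]
        have h1 := Theta_sum X
        have h2 : 4 * C ^ 2 ≤ C' := by
          have := le_max_right 1 (4 * C ^ 2 + C)
          linarith
        have h3 : (0 : ℝ) ≤ (X : ℝ) ^ (1 / 2 : ℝ) := by positivity
        calc 2 * C ^ 2 * ∑ k ∈ Finset.range X, ((k : ℝ) + 1) ^ (-(1 / 2) : ℝ)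
            ≤ 2 * C ^ 2 * (2 * (X : ℝ) ^ (1 / 2 : ℝ)) := mul_le_mul_of_nonneg_left h1 (by positivity)
          _ = 4 * C ^ 2 * (X : ℝ) ^ (1 / 2 : ℝ) := by ring
          _ ≤ _ := mul_le_mul_of_nonneg_right h2 h3

/-- The masses `b` are at most `1`. -/
theorem b_le_one (k : ℕ) : hsI.b k ≤ 1 := by
  rw [← hsI_b_zero]
  exact hsI_anti (Nat.zero_le k)

/-- Bounds of `U` and `b` for `R ≥ 1`. -/
theorem pow_bounds : ∃ c C : ℝ, 0 < c ∧ 1 ≤ C ∧ ∀ R : ℕ, 1 ≤ R →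
    ENNReal.ofReal (c * (R : ℝ) ^ (3 / 4 : ℝ)) ≤ hsI.U R ∧ hsI.U R ≤ ENNReal.ofReal (C * (R : ℝ) ^ (3 / 4 : ℝ)) ∧
    ENNReal.ofReal (c * (R : ℝ) ^ (-(1 / 4) : ℝ)) ≤ hsI.b R := by
  obtain ⟨c1, hc1, hU⟩ := hsI_quarter.U_ge hsI_anti
  obtain ⟨C1, hC1, hU'⟩ := hsI_quarter.U_le
  obtain ⟨c2, C2, hc2, hC2, hb⟩ := hsI_quarter
  refine ⟨min c1 (c2 / 2), max 1 (2 * C1), lt_min hc1 (by positivity), le_max_left _ _, fun R hR => ?_⟩
  have hR0 : (0 : ℝ) < R := by exact_mod_cast hR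
  have hR1 : (1 : ℝ) ≤ R := by exact_mod_cast hR
  refine ⟨le_trans (ENNReal.ofReal_le_ofReal ?_) (hU R), (hU' R).trans (ENNReal.ofReal_le_ofReal ?_),
    le_trans (ENNReal.ofReal_le_ofReal ?_) (hb R).1⟩
  · refine mul_le_mul (min_le_left _ _) ?_ (by positivity) hc1.le
    exact Real.rpow_le_rpow hR0.le (by linarith) (by norm_num)
  · have h1 : ((R : ℝ) + 1) ^ (3 / 4 : ℝ) ≤ 2 * (R : ℝ) ^ (3 / 4 : ℝ) := by
      calc ((R : ℝ) + 1) ^ (3 / 4 : ℝ) ≤ (2 * R) ^ (3 / 4 : ℝ) :=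
            Real.rpow_le_rpow (by positivity) (by linarith) (by norm_num)
        _ = 2 ^ (3 / 4 : ℝ) * (R : ℝ) ^ (3 / 4 : ℝ) := Real.mul_rpow (by norm_num) hR0.le
        _ ≤ 2 * (R : ℝ) ^ (3 / 4 : ℝ) := by
            refine mul_le_mul_of_nonneg_right ?_ (by positivity)
            calc (2 : ℝ) ^ (3 / 4 : ℝ) ≤ 2 ^ (1 : ℝ) := Real.rpow_le_rpow_of_exponent_le (by norm_num) (by norm_num)
              _ = 2 := Real.rpow_one 2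
    calc C1 * ((R : ℝ) + 1) ^ (3 / 4 : ℝ) ≤ C1 * (2 * (R : ℝ) ^ (3 / 4 : ℝ)) := mul_le_mul_of_nonneg_left h1 hC1.le
      _ = (2 * C1) * (R : ℝ) ^ (3 / 4 : ℝ) := by ring
      _ ≤ _ := mul_le_mul_of_nonneg_right (le_max_right _ _) (by positivity)
  · have h1 : (R : ℝ) ^ (-(1 / 4) : ℝ) ≤ 2 * ((R : ℝ) + 1) ^ (-(1 / 4) : ℝ) := by
      have h2 : ((R : ℝ) + 1) ^ (1 / 4 : ℝ) ≤ 2 * (R : ℝ) ^ (1 / 4 : ℝ) := by
        calc ((R : ℝ) + 1) ^ (1 / 4 : ℝ) ≤ (2 * R) ^ (1 / 4 : ℝ) :=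
              Real.rpow_le_rpow (by positivity) (by linarith) (by norm_num)
          _ = 2 ^ (1 / 4 : ℝ) * (R : ℝ) ^ (1 / 4 : ℝ) := Real.mul_rpow (by norm_num) hR0.le
          _ ≤ 2 * (R : ℝ) ^ (1 / 4 : ℝ) := by
              refine mul_le_mul_of_nonneg_right ?_ (by positivity)
              calc (2 : ℝ) ^ (1 / 4 : ℝ) ≤ 2 ^ (1 : ℝ) := Real.rpow_le_rpow_of_exponent_le (by norm_num) (by norm_num)
                _ = 2 := Real.rpow_one 2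
      rw [Real.rpow_neg hR0.le, Real.rpow_neg (by positivity), inv_eq_one_div, ← div_eq_mul_inv,
        div_le_div_iff₀ (by positivity) (by positivity), one_mul]
      exact h2
    calc min c1 (c2 / 2) * (R : ℝ) ^ (-(1 / 4) : ℝ) ≤ c2 / 2 * (2 * ((R : ℝ) + 1) ^ (-(1 / 4) : ℝ)) :=
          mul_le_mul (min_le_right _ _) h1 (by positivity) (by positivity)
      _ = c2 * ((R : ℝ) + 1) ^ (-(1 / 4) : ℝ) := by ring

end Pool.Agent.EVN
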