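import Pool.Agent.EVN.D.Key
import Pool.Agent.EVN.D.Red
import Pool.Agent.EVN.D.Theta
import Pool.Agent.EVN.D.RealA

/-!
Project EVN (MP_8c6f77_pr), block D: case A, the argument `H` of the maximum is large.
-/

namespace Pool.Agent.EVN

open Pool.Agent.Hhelper14.SAW Pool.Agent.HHP Pool.Agent.HEP Pool.Agent.PLY.G Pool.Agent.BEX.F
open scoped ENNReal

theorem le_ofReal_div {x : ℝ≥0∞} {p q : ℝ} (hp : 0 < p) (h : x * ENNReal.ofReal p ≤ ENNReal.ofReal q) :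
    x ≤ ENNReal.ofReal (q / p) := by
  rw [ENNReal.ofReal_div_of_pos hp, ENNReal.le_div_iff_mul_le (Or.inl (by simpa using hp))
    (Or.inl ENNReal.ofReal_ne_top)]
  exact h

/-- Case A. -/
theorem caseA (hP : PMain) (hW : WMain) (hM1 : MOne) (hM3 : MGrow) (hK1 : KOne) (hK3 : KKey) :
    ∃ C : ℕ, 1 ≤ C ∧ ∀ (n n' J L H : ℕ) (𝓛 : Law) (α : ℕ → ℝ≥0∞), Adm C n J → n ≤ n' →
    IsEv n n' J 𝓛 → C ≤ H → C * H ^ 2 ≤ L →
    C * L * H ^ C ≤ J → Antitone α → (∀ k, ak 𝓛 L k ≤ α k) → 1 ≤ α 0 → α 0 ≠ ⊤ → (∀ k, k ≤ H → α k ≤ 2 * hsI.b k) →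
    (∀ k, H / 2 ≤ k → k ≤ H → α H ≤ 2 * ak 𝓛 L k) →
    ENNReal.ofReal (1 / 20) * (∑ k ∈ Finset.range (H + 1), α k) ≤ H * α H →
    (∀ x, 1 ≤ x → x ≤ H → ∑ k ∈ Finset.range (x + 1), α k ≤
      ENNReal.ofReal (((x : ℝ) / H) ^ (1 / 20 : ℝ)) * ∑ k ∈ Finset.range (H + 1), α k) →
    PP n n' ≤
      C * (ENNReal.ofReal ((H : ℝ) ^ (-(1 / 1000) : ℝ)) + (H : ℝ≥0∞) ^ C / J) := by
  obtain ⟨Ck, hCk1, hkey⟩ := key_bound hK1 hK3 (σ := 1 / 20) (by norm_num) (by norm_num)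
  obtain ⟨Cr, hCr1, hred⟩ := red hP hW
  obtain ⟨C1, hM1⟩ := hM1
  obtain ⟨c3, hc3, hM3⟩ := hM3
  obtain ⟨Ct, hCt1, htheta⟩ := theta_le
  obtain ⟨c, Cu, hc, hCu, hpow⟩ := pow_bounds
  obtain ⟨H1, hH11, hrad⟩ := rad_spec (Ck * (C1 + 2) + Ck + 1)
  -- constants
  set K1 : ℝ := 2 * Ck * Cu / c with hK1d
  set K2 : ℝ := K1 / c3 with hK2d
  set K3 : ℝ := C1 * K1 / c with hK3d
  have hK1p : 0 ≤ K1 := by positivity
  have hK2p : 0 ≤ K2 := by positivity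
  have hK3p : 0 ≤ K3 := by positivity
  set Kf : ℝ := K3 * 16 * 20001 ^ 2 * (K2 * 16 + c⁻¹ * (2 * Ct) + c⁻¹ * (Ct * K2 * 16)) * 4 with hKf
  have hKf0 : 0 ≤ Kf := by positivity
  obtain ⟨Kn, hKn⟩ := exists_nat_ge Kf
  refine ⟨Ck * (C1 + 2) ^ 2 + Ck * (C1 + 2) ^ Ck + Cr * (Kn + 1) + Cr + Ck + H1 + 1, by omega, ?_⟩
  set C : ℕ := Ck * (C1 + 2) ^ 2 + Ck * (C1 + 2) ^ Ck + Cr * (Kn + 1) + Cr + Ck + H1 + 1 with hC
  intro n n' J L H 𝓛 α hadm hnn hev hCH hL hJ hα hak hα0 hα0' hαb hαH hσH hx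
  obtain ⟨hr1, hr2, hr3, hr4⟩ := hrad H (by omega)
  set R : ℕ := rad H with hR
  set D : ℕ := (C1 + 2) * R with hD
  have hCk2 : Ck ≤ Ck * (C1 + 2) ^ 2 := Nat.le_mul_of_pos_right _ (by positivity)
  have hH1 : 1 ≤ H := by omega
  have hRH : R ≤ H := by omega
  have hCkR : Ck ≤ R := by
    have : Ck ≤ Ck * (C1 + 2) + Ck + 1 := by omega
    exact this.trans hr1
  have hRD : R ≤ D := by
    rw [hD]
    nlinarith
  -- real versions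
  have hRr : (1 : ℝ) ≤ R := by exact_mod_cast hr2
  have hR0 : (0 : ℝ) < R := by linarith
  have hHr : (1 : ℝ) ≤ H := by exact_mod_cast hH1
  have hH0 : (0 : ℝ) < H := by linarith
  have hRe0 : (R : ℝ≥0∞) ≠ 0 := by exact_mod_cast (by omega : R ≠ 0)
  set A : ℝ≥0∞ := ∑ k ∈ Finset.range (H + 1), α k with hA
  set F : ℝ≥0∞ := FM o D D + FM o' D D with hF
  -- the key bound
  have hk : ∀ v : ℤ × ℤ, (v = o ∨ v = o') → FM v D D * A * hsI.U D ≤ Ck * (H * hsI.U H) := by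
    intro v hv
    refine hkey n n' J L H D D 𝓛 α v ⟨by have := hadm.1; omega, hadm.2⟩ hnn hev hv (by omega) (hCkR.trans hRD) le_rfl
      ?_ ?_ ?_ hα hak hα0 hα0' hαH hσH hx
    · calc Ck * D * (Nat.log 2 H + 1) ^ 4 = (Ck * (C1 + 2)) * R * (Nat.log 2 H + 1) ^ 4 := by rw [hD]; ring
        _ ≤ (Ck * (C1 + 2) + Ck + 1) * R * (Nat.log 2 H + 1) ^ 4 := by gcongr; omega
        _ ≤ H := hr4
    · calc Ck * D ^ 2 = (Ck * (C1 + 2) ^ 2) * R ^ 2 := by rw [hD]; ring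
        _ ≤ C * H ^ 2 := by gcongr; omega
        _ ≤ L := hL
    · calc Ck * L * D ^ Ck = (Ck * (C1 + 2) ^ Ck) * L * R ^ Ck := by rw [hD, mul_pow]; ring
        _ ≤ C * L * H ^ C := by
          have h1 : R ^ Ck ≤ H ^ C := (Nat.pow_le_pow_left hRH Ck).trans (Nat.pow_le_pow_right hH1 (by omega))
          gcongr
          omega
        _ ≤ J := hJ
  have hkF : F * A * hsI.U R ≤ ENNReal.ofReal (2 * Ck * Cu * (H : ℝ) ^ (7 / 4 : ℝ)) := by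
    calc F * A * hsI.U R ≤ F * A * hsI.U D := by
          gcongr
          exact hsI.toAlph.U_mono hRD
      _ = FM o D D * A * hsI.U D + FM o' D D * A * hsI.U D := by rw [hF]; ring
      _ ≤ Ck * (H * hsI.U H) + Ck * (H * hsI.U H) := add_le_add (hk o (Or.inl rfl)) (hk o' (Or.inr rfl))
      _ ≤ Ck * (H * ENNReal.ofReal (Cu * (H : ℝ) ^ (3 / 4 : ℝ))) +
          Ck * (H * ENNReal.ofReal (Cu * (H : ℝ) ^ (3 / 4 : ℝ))) := by
          gcongr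
          · exact (hpow H hH1).2.1
          · exact (hpow H hH1).2.1
      _ = ENNReal.ofReal (2 * Ck * Cu * (H : ℝ) ^ (7 / 4 : ℝ)) := by
          rw [← ENNReal.ofReal_natCast Ck, ← ENNReal.ofReal_natCast H,
            ← ENNReal.ofReal_mul (by positivity), ← ENNReal.ofReal_mul (by positivity),
            ← ENNReal.ofReal_add (by positivity) (by positivity)]
          congr 1
          have h1 : (H : ℝ) * (H : ℝ) ^ (3 / 4 : ℝ) = (H : ℝ) ^ (7 / 4 : ℝ) := by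
            rw [← Real.rpow_one_add' hH0.le (by norm_num)]
            norm_num
          rw [← h1]
          ring
  have hFA : F * A ≤ ENNReal.ofReal (K1 * (H : ℝ) ^ (7 / 4 : ℝ) * (R : ℝ) ^ (-(3 / 4) : ℝ)) := by
    have hp : 0 < c * (R : ℝ) ^ (3 / 4 : ℝ) := by positivity
    have h1 : F * A * ENNReal.ofReal (c * (R : ℝ) ^ (3 / 4 : ℝ)) ≤
        ENNReal.ofReal (2 * Ck * Cu * (H : ℝ) ^ (7 / 4 : ℝ)) := by
      refine le_trans ?_ hkF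
      gcongr
      exact (hpow R hr2).1
    refine (le_ofReal_div hp h1).trans (ENNReal.ofReal_le_ofReal (le_of_eq ?_))
    rw [hK1d, Real.rpow_neg hR0.le]
    field_simp
  -- growth
  have hgrow : ENNReal.ofReal (c3 * (R : ℝ) ^ (1 / 4 + 1 / 131 : ℝ)) ≤ F := by
    refine (hM3 R hr2).trans (add_le_add ?_ ?_)
    · exact FM_mono (by rw [hD]; nlinarith) hRD
    · exact FM_mono (by rw [hD]; nlinarith) hRD
  have hA2 : A ≤ ENNReal.ofReal (K2 * (H : ℝ) ^ (7 / 4 : ℝ) * (R : ℝ) ^ (-1 - 1 / 131 : ℝ)) := by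
    have hp : 0 < c3 * (R : ℝ) ^ (1 / 4 + 1 / 131 : ℝ) := by positivity
    have h1 : A * ENNReal.ofReal (c3 * (R : ℝ) ^ (1 / 4 + 1 / 131 : ℝ)) ≤
        ENNReal.ofReal (K1 * (H : ℝ) ^ (7 / 4 : ℝ) * (R : ℝ) ^ (-(3 / 4) : ℝ)) := by
      refine le_trans ?_ hFA
      rw [mul_comm]
      gcongr
    refine (le_ofReal_div hp h1).trans (ENNReal.ofReal_le_ofReal (le_of_eq ?_))
    rw [hK2d]
    have h2 : (R : ℝ) ^ (-(3 / 4) : ℝ) = (R : ℝ) ^ (-1 - 1 / 131 : ℝ) * (R : ℝ) ^ (1 / 4 + 1 / 131 : ℝ) := by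
      rw [← Real.rpow_add hR0]
      norm_num
    rw [h2]
    have h3 : (R : ℝ) ^ (1 / 4 + 1 / 131 : ℝ) ≠ 0 := by positivity
    field_simp
  -- marked blocks
  have hMA : MM R * A ≤ ENNReal.ofReal (K3 * (H : ℝ) ^ (7 / 4 : ℝ) * (R : ℝ) ^ (-(1 / 2) : ℝ)) := by
    have hp : 0 < c * (R : ℝ) ^ (-(1 / 4) : ℝ) := by positivity
    have h1 : MM R * A * ENNReal.ofReal (c * (R : ℝ) ^ (-(1 / 4) : ℝ)) ≤
        ENNReal.ofReal (C1 * (K1 * (H : ℝ) ^ (7 / 4 : ℝ) * (R : ℝ) ^ (-(3 / 4) : ℝ))) := by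
      calc MM R * A * ENNReal.ofReal (c * (R : ℝ) ^ (-(1 / 4) : ℝ)) ≤ MM R * A * hsI.b R := by
            gcongr
            exact (hpow R hr2).2.2
        _ = (MM R * hsI.b R) * A := by ring
        _ ≤ (C1 * (FM o (C1 * R) (C1 * R) + FM o' (C1 * R) (C1 * R))) * A :=
            mul_le_mul' (hM1 R hr2) le_rfl
        _ ≤ (C1 * F) * A := by
            have h5 : C1 * R ≤ D := by rw [hD]; nlinarith
            gcongr
            rw [hF]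
            exact add_le_add (FM_mono h5 h5) (FM_mono h5 h5)
        _ = C1 * (F * A) := by ring
        _ ≤ C1 * ENNReal.ofReal (K1 * (H : ℝ) ^ (7 / 4 : ℝ) * (R : ℝ) ^ (-(3 / 4) : ℝ)) := by gcongr
        _ = _ := by
            rw [← ENNReal.ofReal_natCast C1, ← ENNReal.ofReal_mul (by positivity)]
    refine (le_ofReal_div hp h1).trans (ENNReal.ofReal_le_ofReal (le_of_eq ?_))
    rw [hK3d]
    have h2 : (R : ℝ) ^ (-(3 / 4) : ℝ) = (R : ℝ) ^ (-(1 / 2) : ℝ) * (R : ℝ) ^ (-(1 / 4) : ℝ) := by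
      rw [← Real.rpow_add hR0]
      norm_num
    rw [h2]
    have h3 : (R : ℝ) ^ (-(1 / 4) : ℝ) ≠ 0 := by positivity
    field_simp
  -- the main bound
  have hA16 : ∑ k ∈ Finset.range (16 * R + 1), α k ≤ A :=
    Finset.sum_le_sum_of_subset (Finset.range_mono (by omega))
  have hmain := hred n n' J R L 𝓛 α ⟨by have := hadm.1; omega, hadm.2⟩ hnn hev hr2 (by
      calc Cr * R ^ 2 ≤ C * H ^ 2 := by gcongr; omega
        _ ≤ L := hL) hα hak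
  -- the splitting point
  set X : ℕ := ⌈(R : ℝ) ^ (130 / 131 : ℝ)⌉₊ with hX
  have hX1 : (R : ℝ) ^ (130 / 131 : ℝ) ≤ X := Nat.le_ceil _
  have hX3 : (1 : ℝ) ≤ (R : ℝ) ^ (130 / 131 : ℝ) := Real.one_le_rpow hRr (by norm_num)
  have hX2 : (X : ℝ) ≤ 2 * (R : ℝ) ^ (130 / 131 : ℝ) := by
    have := Nat.ceil_lt_add_one (show (0 : ℝ) ≤ (R : ℝ) ^ (130 / 131 : ℝ) by positivity)
    rw [← hX] at this
    linarith
  have hX4 : 1 ≤ X := by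
    have : (1 : ℝ) ≤ X := hX3.trans hX1
    exact_mod_cast this
  have hX5 : X ≤ H := by
    have h1 : (X : ℝ) ≤ 2 * R := by
      refine hX2.trans ?_
      have : (R : ℝ) ^ (130 / 131 : ℝ) ≤ (R : ℝ) ^ (1 : ℝ) := Real.rpow_le_rpow_of_exponent_le hRr (by norm_num)
      rw [Real.rpow_one] at this
      linarith
    have h2 : X ≤ 2 * R := by exact_mod_cast h1
    omega
  have hΘ := htheta α X (16 * R) hX4 fun y hy => hαb y (by omega)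
  have hX0 : (0 : ℝ) < X := by exact_mod_cast hX4
  have hΘ' : ∑ y ∈ Finset.range (16 * R + 1), hsI.b y * α y ≤ ENNReal.ofReal (Ct * (X : ℝ) ^ (1 / 2 : ℝ) +
      Ct * (X : ℝ) ^ (-(1 / 4) : ℝ) * (K2 * (H : ℝ) ^ (7 / 4 : ℝ) * (R : ℝ) ^ (-1 - 1 / 131 : ℝ))) := by
    refine hΘ.trans ?_
    rw [ENNReal.ofReal_add (by positivity) (by positivity)]
    refine add_le_add le_rfl ?_
    rw [ENNReal.ofReal_mul (p := Ct * (X : ℝ) ^ (-(1 / 4) : ℝ)) (by positivity)]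
    exact mul_le_mul' le_rfl (hA16.trans hA2)
  have hUinv : (hsI.U R)⁻¹ ≤ ENNReal.ofReal (c⁻¹ * (R : ℝ) ^ (-(3 / 4) : ℝ)) := by
    have h1 : 0 < c * (R : ℝ) ^ (3 / 4 : ℝ) := by positivity
    calc (hsI.U R)⁻¹ ≤ (ENNReal.ofReal (c * (R : ℝ) ^ (3 / 4 : ℝ)))⁻¹ := ENNReal.inv_le_inv.2 (hpow R hr2).1
      _ = ENNReal.ofReal (c * (R : ℝ) ^ (3 / 4 : ℝ))⁻¹ := (ENNReal.ofReal_inv_of_pos h1).symm
      _ = _ := by
          congr 1
          rw [mul_inv, ← Real.rpow_neg hR0.le]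
  have hAR : (∑ k ∈ Finset.range (16 * R + 1), α k) / R ≤
      ENNReal.ofReal (K2 * (H : ℝ) ^ (7 / 4 : ℝ) * (R : ℝ) ^ (-2 - 1 / 131 : ℝ)) := by
    rw [ENNReal.div_le_iff hRe0 (ENNReal.natCast_ne_top R)]
    refine (hA16.trans hA2).trans (le_of_eq ?_)
    rw [← ENNReal.ofReal_natCast R, ← ENNReal.ofReal_mul (by positivity)]
    congr 1
    have h1 : (R : ℝ) ^ (-1 - 1 / 131 : ℝ) = (R : ℝ) ^ (-2 - 1 / 131 : ℝ) * (R : ℝ) := by
      conv_rhs => rw [← Real.rpow_one (R : ℝ), ← Real.rpow_mul hR0.le, ← Real.rpow_add hR0]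
      norm_num
    rw [h1]
    ring
  have hMAR : MM R * ((∑ k ∈ Finset.range (16 * R + 1), α k) / R) ≤
      ENNReal.ofReal (K3 * (H : ℝ) ^ (7 / 4 : ℝ) * (R : ℝ) ^ (-(3 / 2) : ℝ)) := by
    rw [← mul_div_assoc, ENNReal.div_le_iff hRe0 (ENNReal.natCast_ne_top R)]
    refine ((mul_le_mul' le_rfl hA16).trans hMA).trans (le_of_eq ?_)
    rw [← ENNReal.ofReal_natCast R, ← ENNReal.ofReal_mul (by positivity)]
    congr 1
    have h1 : (R : ℝ) ^ (-(1 / 2) : ℝ) = (R : ℝ) ^ (-(3 / 2) : ℝ) * (R : ℝ) := by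
      conv_rhs => rw [← Real.rpow_one (R : ℝ), ← Real.rpow_mul hR0.le, ← Real.rpow_add hR0]
      norm_num
    rw [h1]
    ring
  set lg : ℝ := ((Nat.log 2 R + 1 : ℕ) : ℝ) with hlg
  have hlg0 : 0 ≤ lg := Nat.cast_nonneg _
  have hlge : ((Nat.log 2 R + 1 : ℕ) : ℝ≥0∞) ^ 2 = ENNReal.ofReal (lg ^ 2) := by
    rw [hlg, ENNReal.ofReal_pow (Nat.cast_nonneg _), ENNReal.ofReal_natCast]
  have hreal := realA (K2 := K2) (K3 := K3) (κ := c⁻¹) (Ct := Ct) (ρ := (R : ℝ)) (h := (H : ℝ)) (X := (X : ℝ)) (lg := lg)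
    hK2p hK3p (by positivity) (by positivity) hRr hHr (le_rad hr2) hX1 hX2 hlg0 (natLog_le R hr2)
  have hprod : MM R * ((∑ k ∈ Finset.range (16 * R + 1), α k) / R) * (((Nat.log 2 R + 1 : ℕ) : ℝ≥0∞) ^ 2 *
        ((∑ k ∈ Finset.range (16 * R + 1), α k) / R +
          (hsI.U R)⁻¹ * ∑ y ∈ Finset.range (16 * R + 1), hsI.b y * α y)) ≤
      ENNReal.ofReal (Kf * (H : ℝ) ^ (-(1 / 1000) : ℝ)) := by
    refine le_trans ?_ (ENNReal.ofReal_le_ofReal hreal)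
    rw [hlge]
    calc MM R * ((∑ k ∈ Finset.range (16 * R + 1), α k) / R) * (ENNReal.ofReal (lg ^ 2) *
        ((∑ k ∈ Finset.range (16 * R + 1), α k) / R +
          (hsI.U R)⁻¹ * ∑ y ∈ Finset.range (16 * R + 1), hsI.b y * α y))
        ≤ ENNReal.ofReal (K3 * (H : ℝ) ^ (7 / 4 : ℝ) * (R : ℝ) ^ (-(3 / 2) : ℝ)) * (ENNReal.ofReal (lg ^ 2) *
          (ENNReal.ofReal (K2 * (H : ℝ) ^ (7 / 4 : ℝ) * (R : ℝ) ^ (-2 - 1 / 131 : ℝ)) +
            ENNReal.ofReal (c⁻¹ * (R : ℝ) ^ (-(3 / 4) : ℝ)) * ENNReal.ofReal (Ct * (X : ℝ) ^ (1 / 2 : ℝ) +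
      Ct * (X : ℝ) ^ (-(1 / 4) : ℝ) * (K2 * (H : ℝ) ^ (7 / 4 : ℝ) * (R : ℝ) ^ (-1 - 1 / 131 : ℝ))))) := by gcongr
      _ = _ := by
        rw [← ENNReal.ofReal_mul (by positivity), ← ENNReal.ofReal_add (by positivity) (by positivity),
          ← ENNReal.ofReal_mul (by positivity), ← ENNReal.ofReal_mul (by positivity)]
  have hRH' : (R : ℝ≥0∞) ≤ H := by exact_mod_cast hRH
  have hH1' : (1 : ℝ≥0∞) ≤ H := by exact_mod_cast hH1
  have herr : (R : ℝ≥0∞) ^ Cr / J ≤ (H : ℝ≥0∞) ^ C / J := by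
    gcongr ?_ / _
    calc (R : ℝ≥0∞) ^ Cr ≤ (H : ℝ≥0∞) ^ Cr := by gcongr
      _ ≤ (H : ℝ≥0∞) ^ C := pow_le_pow_right₀ hH1' (by omega)
  refine hmain.trans ?_
  calc (Cr : ℝ≥0∞) * (MM R * ((∑ k ∈ Finset.range (16 * R + 1), α k) / R) * (((Nat.log 2 R + 1 : ℕ) : ℝ≥0∞) ^ 2 *
        ((∑ k ∈ Finset.range (16 * R + 1), α k) / R +
          (hsI.U R)⁻¹ * ∑ y ∈ Finset.range (16 * R + 1), hsI.b y * α y)) + (R : ℝ≥0∞) ^ Cr / J)
      ≤ Cr * (ENNReal.ofReal (Kf * (H : ℝ) ^ (-(1 / 1000) : ℝ)) + (H : ℝ≥0∞) ^ C / J) := by gcongr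
    _ ≤ Cr * (((Kn + 1 : ℕ) : ℝ≥0∞) * ENNReal.ofReal ((H : ℝ) ^ (-(1 / 1000) : ℝ)) +
          ((Kn + 1 : ℕ) : ℝ≥0∞) * ((H : ℝ≥0∞) ^ C / J)) := by
        gcongr
        · rw [← ENNReal.ofReal_natCast (Kn + 1), ← ENNReal.ofReal_mul (Nat.cast_nonneg _)]
          refine ENNReal.ofReal_le_ofReal (mul_le_mul_of_nonneg_right ?_ (by positivity))
          push_cast
          linarith
        · calc (H : ℝ≥0∞) ^ C / J = 1 * ((H : ℝ≥0∞) ^ C / J) := (one_mul _).symm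
            _ ≤ _ := by
              gcongr
              exact_mod_cast Nat.succ_le_succ (Nat.zero_le Kn)
    _ = ((Cr * (Kn + 1) : ℕ) : ℝ≥0∞) * (ENNReal.ofReal ((H : ℝ) ^ (-(1 / 1000) : ℝ)) + (H : ℝ≥0∞) ^ C / J) := by
        push_cast
        ring
    _ ≤ _ := by
        gcongr
        omega

end Pool.Agent.EVN
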