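import Pool.Agent.EVN.D.CaseA

/-!
Project EVN (MP_8c6f77_pr), block D: case B, the argument `H` of the maximum is small.
-/

namespace Pool.Agent.EVN

open Pool.Agent.Hhelper14.SAW Pool.Agent.HHP Pool.Agent.HEP Pool.Agent.PLY.G Pool.Agent.BEX.F
open scoped ENNReal

/-- The final inequality of case B. -/
theorem realB {K κ ρ G lg : ℝ} (hK : 0 ≤ K) (hκ : 0 ≤ κ) (hρ : 1 ≤ ρ) (hG : 0 ≤ G)
    (hlg0 : 0 ≤ lg) (hlg : lg ≤ 20001 * ρ ^ (1 / 10000 : ℝ)) :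
    K * G * ρ ^ (3 / 10 : ℝ) * (lg ^ 2 * (G * ρ ^ (-(19 / 20) : ℝ) + κ * (G * ρ ^ (-(7 / 10) : ℝ)))) ≤
    K * 20001 ^ 2 * (1 + κ) * (G ^ 2 * ρ ^ (-(3 / 10) : ℝ)) := by
  have hρ0 : 0 < ρ := by linarith
  have hlg2 : lg ^ 2 ≤ 20001 ^ 2 * ρ ^ (1 / 5000 : ℝ) := by
    calc lg ^ 2 ≤ (20001 * ρ ^ (1 / 10000 : ℝ)) ^ 2 := pow_le_pow_left₀ hlg0 hlg 2
      _ = 20001 ^ 2 * ρ ^ (1 / 5000 : ℝ) := by
          rw [mul_pow, ← Real.rpow_natCast (ρ ^ (1 / 10000 : ℝ)) 2, ← Real.rpow_mul hρ0.le]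
          norm_num
  have e1 : ρ ^ (3 / 10 : ℝ) * (ρ ^ (1 / 5000 : ℝ) * ρ ^ (-(19 / 20) : ℝ)) ≤ ρ ^ (-(3 / 10) : ℝ) := by
    rw [← Real.rpow_add hρ0, ← Real.rpow_add hρ0]
    exact Real.rpow_le_rpow_of_exponent_le hρ (by norm_num)
  have e2 : ρ ^ (3 / 10 : ℝ) * (ρ ^ (1 / 5000 : ℝ) * ρ ^ (-(7 / 10) : ℝ)) ≤ ρ ^ (-(3 / 10) : ℝ) := by
    rw [← Real.rpow_add hρ0, ← Real.rpow_add hρ0]
    exact Real.rpow_le_rpow_of_exponent_le hρ (by norm_num)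
  calc K * G * ρ ^ (3 / 10 : ℝ) * (lg ^ 2 * (G * ρ ^ (-(19 / 20) : ℝ) + κ * (G * ρ ^ (-(7 / 10) : ℝ))))
      ≤ K * G * ρ ^ (3 / 10 : ℝ) * ((20001 ^ 2 * ρ ^ (1 / 5000 : ℝ)) *
          (G * ρ ^ (-(19 / 20) : ℝ) + κ * (G * ρ ^ (-(7 / 10) : ℝ)))) := by gcongr
    _ = K * 20001 ^ 2 * G ^ 2 * (ρ ^ (3 / 10 : ℝ) * (ρ ^ (1 / 5000 : ℝ) * ρ ^ (-(19 / 20) : ℝ)) +
          κ * (ρ ^ (3 / 10 : ℝ) * (ρ ^ (1 / 5000 : ℝ) * ρ ^ (-(7 / 10) : ℝ)))) := by ring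
    _ ≤ K * 20001 ^ 2 * G ^ 2 * (ρ ^ (-(3 / 10) : ℝ) + κ * ρ ^ (-(3 / 10) : ℝ)) := by gcongr
    _ = _ := by ring

/-- Case B. -/
theorem caseB (hP : PMain) (hW : WMain) (hMa : MArea) :
    ∃ C : ℕ, 1 ≤ C ∧ ∀ (n n' J L R : ℕ) (𝓛 : Law) (α : ℕ → ℝ≥0∞) (G : ℝ), Adm C n J → n ≤ n' → IsEv n n' J 𝓛 →
    1 ≤ R → C * R ^ 2 ≤ L → Antitone α → (∀ k, ak 𝓛 L k ≤ α k) → 0 ≤ G →
    ∑ k ∈ Finset.range (16 * R + 1), α k ≤ ENNReal.ofReal (G * (R : ℝ) ^ (1 / 20 : ℝ)) →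
    PP n n' ≤ C * (ENNReal.ofReal (G ^ 2 * (R : ℝ) ^ (-(3 / 10) : ℝ)) + (R : ℝ≥0∞) ^ C / J) := by
  obtain ⟨Cr, hCr1, hred⟩ := red hP hW
  obtain ⟨C1, hMa⟩ := hMa
  obtain ⟨c, Cu, hc, hCu, hpow⟩ := pow_bounds
  set K : ℝ := C1 / c with hKd
  have hK : 0 ≤ K := by positivity
  set Kf : ℝ := K * 20001 ^ 2 * (1 + c⁻¹) with hKf
  have hKf0 : 0 ≤ Kf := by positivity
  obtain ⟨Kn, hKn⟩ := exists_nat_ge Kf
  refine ⟨Cr * (Kn + 1) + Cr, by omega, ?_⟩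
  set C : ℕ := Cr * (Kn + 1) + Cr with hC
  intro n n' J L R 𝓛 α G hadm hnn hev hR hL hα hak hG hsum
  have hRr : (1 : ℝ) ≤ R := by exact_mod_cast hR
  have hR0 : (0 : ℝ) < R := by linarith
  have hRe0 : (R : ℝ≥0∞) ≠ 0 := by exact_mod_cast (by omega : R ≠ 0)
  have hmain := hred n n' J R L 𝓛 α ⟨by have := hadm.1; omega, hadm.2⟩ hnn hev hR (by
      calc Cr * R ^ 2 ≤ C * R ^ 2 := by gcongr; omega
        _ ≤ L := hL) hα hak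
  have hΘ : ∑ y ∈ Finset.range (16 * R + 1), hsI.b y * α y ≤ ENNReal.ofReal (G * (R : ℝ) ^ (1 / 20 : ℝ)) := by
    refine (Finset.sum_le_sum fun y _ => ?_).trans hsum
    calc hsI.b y * α y ≤ 1 * α y := mul_le_mul' (b_le_one y) le_rfl
      _ = α y := one_mul _
  have hMb : MM R ≤ ENNReal.ofReal (K * (R : ℝ) ^ (5 / 4 : ℝ)) := by
    have hp : 0 < c * (R : ℝ) ^ (-(1 / 4) : ℝ) := by positivity
    have h1 : MM R * ENNReal.ofReal (c * (R : ℝ) ^ (-(1 / 4) : ℝ)) ≤ ENNReal.ofReal (C1 * R) := by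
      calc MM R * ENNReal.ofReal (c * (R : ℝ) ^ (-(1 / 4) : ℝ)) ≤ MM R * hsI.b R := by
            gcongr
            exact (hpow R hR).2.2
        _ ≤ C1 * R := hMa R hR
        _ = ENNReal.ofReal (C1 * R) := by
            rw [ENNReal.ofReal_mul (Nat.cast_nonneg _), ENNReal.ofReal_natCast, ENNReal.ofReal_natCast]
    refine (le_ofReal_div hp h1).trans (ENNReal.ofReal_le_ofReal (le_of_eq ?_))
    rw [hKd]
    have h2 : (R : ℝ) = (R : ℝ) ^ (5 / 4 : ℝ) * (R : ℝ) ^ (-(1 / 4) : ℝ) := by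
      rw [← Real.rpow_add hR0]
      norm_num
    have h3 : (R : ℝ) ^ (-(1 / 4) : ℝ) ≠ 0 := by positivity
    rw [div_eq_iff hp.ne']
    calc (C1 : ℝ) * R = C1 * ((R : ℝ) ^ (5 / 4 : ℝ) * (R : ℝ) ^ (-(1 / 4) : ℝ)) := by rw [← h2]
      _ = _ := by field_simp
  have hUinv : (hsI.U R)⁻¹ ≤ ENNReal.ofReal (c⁻¹ * (R : ℝ) ^ (-(3 / 4) : ℝ)) := by
    have h1 : 0 < c * (R : ℝ) ^ (3 / 4 : ℝ) := by positivity
    calc (hsI.U R)⁻¹ ≤ (ENNReal.ofReal (c * (R : ℝ) ^ (3 / 4 : ℝ)))⁻¹ := ENNReal.inv_le_inv.2 (hpow R hR).1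
      _ = ENNReal.ofReal (c * (R : ℝ) ^ (3 / 4 : ℝ))⁻¹ := (ENNReal.ofReal_inv_of_pos h1).symm
      _ = _ := by
          congr 1
          rw [mul_inv, ← Real.rpow_neg hR0.le]
  have hAR : (∑ k ∈ Finset.range (16 * R + 1), α k) / R ≤ ENNReal.ofReal (G * (R : ℝ) ^ (-(19 / 20) : ℝ)) := by
    rw [ENNReal.div_le_iff hRe0 (ENNReal.natCast_ne_top R)]
    refine hsum.trans (le_of_eq ?_)
    rw [← ENNReal.ofReal_natCast R, ← ENNReal.ofReal_mul (by positivity)]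
    congr 1
    have h1 : (R : ℝ) ^ (1 / 20 : ℝ) = (R : ℝ) ^ (-(19 / 20) : ℝ) * (R : ℝ) := by
      conv_rhs => rw [← Real.rpow_one (R : ℝ), ← Real.rpow_mul hR0.le, ← Real.rpow_add hR0]
      norm_num
    rw [h1]
    ring
  have hMAR : MM R * ((∑ k ∈ Finset.range (16 * R + 1), α k) / R) ≤
      ENNReal.ofReal (K * G * (R : ℝ) ^ (3 / 10 : ℝ)) := by
    refine (mul_le_mul' hMb hAR).trans (le_of_eq ?_)
    rw [← ENNReal.ofReal_mul (by positivity)]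
    congr 1
    have h1 : (R : ℝ) ^ (3 / 10 : ℝ) = (R : ℝ) ^ (5 / 4 : ℝ) * (R : ℝ) ^ (-(19 / 20) : ℝ) := by
      rw [← Real.rpow_add hR0]
      norm_num
    rw [h1]
    ring
  have hUΘ : (hsI.U R)⁻¹ * ∑ y ∈ Finset.range (16 * R + 1), hsI.b y * α y ≤
      ENNReal.ofReal (c⁻¹ * (G * (R : ℝ) ^ (-(7 / 10) : ℝ))) := by
    refine (mul_le_mul' hUinv hΘ).trans (le_of_eq ?_)
    rw [← ENNReal.ofReal_mul (by positivity)]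
    congr 1
    have h1 : (R : ℝ) ^ (-(7 / 10) : ℝ) = (R : ℝ) ^ (-(3 / 4) : ℝ) * (R : ℝ) ^ (1 / 20 : ℝ) := by
      rw [← Real.rpow_add hR0]
      norm_num
    rw [h1]
    ring
  set lg : ℝ := ((Nat.log 2 R + 1 : ℕ) : ℝ) with hlg
  have hlg0 : 0 ≤ lg := Nat.cast_nonneg _
  have hlge : ((Nat.log 2 R + 1 : ℕ) : ℝ≥0∞) ^ 2 = ENNReal.ofReal (lg ^ 2) := by
    rw [hlg, ENNReal.ofReal_pow (Nat.cast_nonneg _), ENNReal.ofReal_natCast]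
  have hreal := realB (K := K) (κ := c⁻¹) (ρ := (R : ℝ)) (G := G) (lg := lg)
    hK (by positivity) hRr hG hlg0 (natLog_le R hR)
  have hprod : MM R * ((∑ k ∈ Finset.range (16 * R + 1), α k) / R) * (((Nat.log 2 R + 1 : ℕ) : ℝ≥0∞) ^ 2 *
        ((∑ k ∈ Finset.range (16 * R + 1), α k) / R +
          (hsI.U R)⁻¹ * ∑ y ∈ Finset.range (16 * R + 1), hsI.b y * α y)) ≤
      ENNReal.ofReal (Kf * (G ^ 2 * (R : ℝ) ^ (-(3 / 10) : ℝ))) := by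
    refine le_trans ?_ (ENNReal.ofReal_le_ofReal hreal)
    rw [hlge]
    calc MM R * ((∑ k ∈ Finset.range (16 * R + 1), α k) / R) * (ENNReal.ofReal (lg ^ 2) *
        ((∑ k ∈ Finset.range (16 * R + 1), α k) / R +
          (hsI.U R)⁻¹ * ∑ y ∈ Finset.range (16 * R + 1), hsI.b y * α y))
        ≤ ENNReal.ofReal (K * G * (R : ℝ) ^ (3 / 10 : ℝ)) * (ENNReal.ofReal (lg ^ 2) *
          (ENNReal.ofReal (G * (R : ℝ) ^ (-(19 / 20) : ℝ)) +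
            ENNReal.ofReal (c⁻¹ * (G * (R : ℝ) ^ (-(7 / 10) : ℝ))))) := by gcongr
      _ = _ := by
        rw [← ENNReal.ofReal_add (by positivity) (by positivity),
          ← ENNReal.ofReal_mul (by positivity), ← ENNReal.ofReal_mul (by positivity)]
  have hR1' : (1 : ℝ≥0∞) ≤ R := by exact_mod_cast hR
  have herr : (R : ℝ≥0∞) ^ Cr / J ≤ (R : ℝ≥0∞) ^ C / J := by
    gcongr ?_ / _
    exact pow_le_pow_right₀ hR1' (by omega)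
  refine hmain.trans ?_
  calc (Cr : ℝ≥0∞) * (MM R * ((∑ k ∈ Finset.range (16 * R + 1), α k) / R) * (((Nat.log 2 R + 1 : ℕ) : ℝ≥0∞) ^ 2 *
        ((∑ k ∈ Finset.range (16 * R + 1), α k) / R +
          (hsI.U R)⁻¹ * ∑ y ∈ Finset.range (16 * R + 1), hsI.b y * α y)) + (R : ℝ≥0∞) ^ Cr / J)
      ≤ Cr * (ENNReal.ofReal (Kf * (G ^ 2 * (R : ℝ) ^ (-(3 / 10) : ℝ))) + (R : ℝ≥0∞) ^ C / J) := by gcongr
    _ ≤ Cr * (((Kn + 1 : ℕ) : ℝ≥0∞) * ENNReal.ofReal (G ^ 2 * (R : ℝ) ^ (-(3 / 10) : ℝ)) +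
          ((Kn + 1 : ℕ) : ℝ≥0∞) * ((R : ℝ≥0∞) ^ C / J)) := by
        gcongr
        · rw [← ENNReal.ofReal_natCast (Kn + 1), ← ENNReal.ofReal_mul (Nat.cast_nonneg _)]
          refine ENNReal.ofReal_le_ofReal (mul_le_mul_of_nonneg_right ?_ (by positivity))
          push_cast
          linarith
        · calc (R : ℝ≥0∞) ^ C / J = 1 * ((R : ℝ≥0∞) ^ C / J) := (one_mul _).symm
            _ ≤ _ := by
              gcongr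
              exact_mod_cast Nat.succ_le_succ (Nat.zero_le Kn)
    _ = ((Cr * (Kn + 1) : ℕ) : ℝ≥0∞) * (ENNReal.ofReal (G ^ 2 * (R : ℝ) ^ (-(3 / 10) : ℝ)) +
          (R : ℝ≥0∞) ^ C / J) := by
        push_cast
        ring
    _ ≤ _ := by
        gcongr
        omega

end Pool.Agent.EVN
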