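import Pool.Agent.EVN.D.Basic

/-!
Project EVN (MP_8c6f77_pr), block D: `KOne` and `KKey` give `F(N) A(H) U(D) ≤ C H U(H)`.
-/

namespace Pool.Agent.EVN

open Pool.Agent.Hhelper14.SAW Pool.Agent.HHP Pool.Agent.HEP Pool.Agent.PLY.G Pool.Agent.BEX.F
open scoped ENNReal

theorem key_bound (h1 : KOne) (h3 : KKey) {σ : ℝ} (hσ : 0 < σ) (hσ1 : σ < 1) : ∃ C : ℕ, 1 ≤ C ∧
    ∀ (n n' J L H D N : ℕ) (𝓛 : Law) (α : ℕ → ℝ≥0∞) (v : ℤ × ℤ),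
    Adm C n J → n ≤ n' → IsEv n n' J 𝓛 → (v = o ∨ v = o') → C ≤ H → C ≤ D → N ≤ D →
    C * D * (Nat.log 2 H + 1) ^ 4 ≤ H → C * D ^ 2 ≤ L → C * L * D ^ C ≤ J → Antitone α →
    (∀ k, ak 𝓛 L k ≤ α k) → 1 ≤ α 0 → α 0 ≠ ⊤ → (∀ k, H / 2 ≤ k → k ≤ H → α H ≤ 2 * ak 𝓛 L k) →
    ENNReal.ofReal σ * (∑ k ∈ Finset.range (H + 1), α k) ≤ H * α H →
    (∀ x, 1 ≤ x → x ≤ H → ∑ k ∈ Finset.range (x + 1), α k ≤
      ENNReal.ofReal (((x : ℝ) / H) ^ σ) * ∑ k ∈ Finset.range (H + 1), α k) →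
    FM v D N * (∑ k ∈ Finset.range (H + 1), α k) * hsI.U D ≤ C * (H * hsI.U H) := by
  obtain ⟨C1, K1, n1, h1⟩ := h1
  obtain ⟨C3, H3, h3⟩ := h3 σ hσ hσ1
  refine ⟨16 * C3 + 2 * C1 + 2 * K1 + n1 + H3 + 1, by omega, ?_⟩
  set C : ℕ := 16 * C3 + 2 * C1 + 2 * K1 + n1 + H3 + 1 with hC
  intro n n' J L H D N 𝓛 α v hadm hnn hev hv hCH hCD hND hlog hL hJ hα hak hα0 hα0' hαH hσH hx
  have hD1 : 1 ≤ D := by omega
  have hl1 : 1 ≤ (Nat.log 2 H + 1) ^ 4 := Nat.one_le_pow _ _ (Nat.succ_pos _)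
  have hDH : D ≤ H := by
    calc D = 1 * D * 1 := by ring
      _ ≤ C * D * (Nat.log 2 H + 1) ^ 4 := by gcongr; omega
      _ ≤ H := hlog
  have hL1 : D ^ 2 ≤ L := by
    calc D ^ 2 = 1 * D ^ 2 := by ring
      _ ≤ C * D ^ 2 := by gcongr; omega
      _ ≤ L := hL
  have hDC : D ^ K1 ≤ D ^ C := Nat.pow_le_pow_right hD1 (by omega)
  have hDC1 : 1 ≤ D ^ C := Nat.one_le_pow _ _ hD1
  -- the key lemma
  have k3 := h3 H (2 * D + 2) L 𝓛 α (by omega) (by omega) (by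
      calc C3 * (2 * D + 2) * (Nat.log 2 H + 1) ^ 4 ≤ C3 * (4 * D) * (Nat.log 2 H + 1) ^ 4 := by
            gcongr; omega
        _ = (4 * C3) * D * (Nat.log 2 H + 1) ^ 4 := by ring
        _ ≤ C * D * (Nat.log 2 H + 1) ^ 4 := by gcongr; omega
        _ ≤ H := hlog) (by omega) (by
      calc C3 * (2 * D + 2) ^ 2 ≤ C3 * (4 * D) ^ 2 := by gcongr; omega
        _ = (16 * C3) * D ^ 2 := by ring
        _ ≤ C * D ^ 2 := by gcongr; omega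
        _ ≤ L := hL) hα hak hα0 hα0' hαH hσH hx
  -- KOne
  have k1 := h1 n n' J D N (H + 1) (2 * L) 𝓛 v hv ⟨by have := hadm.1; omega, hadm.2⟩ hnn hev hD1 hND
    (by omega) (by
      calc K1 * (2 * L) = (2 * K1) * L * 1 := by ring
        _ ≤ C * L * D ^ C := by gcongr; omega
        _ ≤ J := hJ)
  have hJ0 : (J : ℝ≥0∞) ≠ 0 := by
    have := hadm.2.1
    exact_mod_cast (by omega : J ≠ 0)
  have hJt : (J : ℝ≥0∞) ≠ ⊤ := ENNReal.natCast_ne_top J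
  have herr : (C1 : ℝ≥0∞) * ((D : ℝ≥0∞) ^ K1 * (((2 * L : ℕ) : ℝ≥0∞) / J)) ≤ 1 := by
    have e1 : (C1 : ℝ≥0∞) * ((D : ℝ≥0∞) ^ K1 * (((2 * L : ℕ) : ℝ≥0∞) / J)) =
        ((2 * C1 * L * D ^ K1 : ℕ) : ℝ≥0∞) / J := by
      push_cast
      rw [← mul_div_assoc, ← mul_div_assoc]
      congr 1
      ring
    rw [e1, ENNReal.div_le_iff hJ0 hJt, one_mul]
    have e2 : 2 * C1 * L * D ^ K1 ≤ J := by
      calc 2 * C1 * L * D ^ K1 ≤ C * L * D ^ C := by gcongr; omega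
        _ ≤ J := hJ
    exact_mod_cast e2
  have k1' : FM v D N * ∑ h ∈ Finset.range (H + 1), ph 𝓛 (2 * L) (2 * D + 2) h ≤ 8 * H := by
    refine k1.trans ?_
    calc ((H + 1 + N + 1 : ℕ) : ℝ≥0∞) * (1 + C1 * ((D : ℝ≥0∞) ^ K1 * (((2 * L : ℕ) : ℝ≥0∞) / J)))
        ≤ ((4 * H : ℕ) : ℝ≥0∞) * (1 + 1) := by
          refine mul_le_mul' ?_ (add_le_add le_rfl herr)
          have : H + 1 + N + 1 ≤ 4 * H := by omega
          exact_mod_cast this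
      _ = 8 * H := by push_cast; ring
  calc FM v D N * (∑ k ∈ Finset.range (H + 1), α k) * hsI.U D
      ≤ FM v D N * ((∑ k ∈ Finset.range (H + 1), α k) * hsI.U (2 * D + 2)) := by
        rw [mul_assoc]
        gcongr
        exact hsI.toAlph.U_mono (by omega)
    _ ≤ FM v D N * (C3 * (hsI.U H * ∑ h ∈ Finset.range (H + 1), ph 𝓛 (2 * L) (2 * D + 2) h)) := by
        gcongr
    _ = C3 * hsI.U H * (FM v D N * ∑ h ∈ Finset.range (H + 1), ph 𝓛 (2 * L) (2 * D + 2) h) := by ring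
    _ ≤ C3 * hsI.U H * (8 * H) := by gcongr
    _ = ((8 * C3 : ℕ) : ℝ≥0∞) * (H * hsI.U H) := by push_cast; ring
    _ ≤ C * (H * hsI.U H) := by
        gcongr
        omega

end Pool.Agent.EVN
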